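import Pool.Agent.Q273.SP.Main

/-! Complex conjugations and the decomposition groups of finite places. -/

set_option autoImplicit false
set_option linter.unusedSectionVars false

namespace Pool.Agent.Q273.SQ

open NumberField Pool.Agent.Q246.BI Pool.Agent.Q246.RP Pool.Agent.Q273.SP
open scoped Classical

section
variable {K : Type} [Field K] [NumberField K]

/-- a complex conjugation fixes no finite place of `K̄` -/
theorem cc_not_dec {p : ℕ} (hp : p.Prime) {w : AlgebraicClosure K → ℝ} (hw : IsPl p w)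
    {t : Gal(AlgebraicClosure K/K)} (ht : IsCC t) : ¬ ∀ x, w (t x) = w x := by
  intro hdec
  obtain ⟨ι, hι⟩ := ht
  obtain ⟨i, hi⟩ := IsAlgClosed.exists_pow_nat_eq (-1 : AlgebraicClosure K) (n := 2) (by norm_num)
  obtain ⟨x, hx⟩ := IsAlgClosed.exists_pow_nat_eq ((p : AlgebraicClosure K) ^ 4 - 1) (n := 2)
    (by norm_num)
  have hιi : ι i ^ 2 = -1 := by rw [← map_pow, hi, map_neg, map_one]
  have hI : ι i = Complex.I ∨ ι i = -Complex.I := by
    have : ι i ^ 2 = Complex.I ^ 2 := by rw [hιi, Complex.I_sq]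
    exact sq_eq_sq_iff_eq_or_eq_neg.1 this
  have hti : t i = -i := by
    apply ι.injective
    rw [hι, map_neg]
    rcases hI with h1 | h1
    · rw [h1, Complex.conj_I]
    · rw [h1, map_neg, Complex.conj_I]
  -- `ι x` is real
  have hp1 : (1 : ℝ) ≤ (p : ℝ) ^ 4 := one_le_pow₀ (by exact_mod_cast hp.one_lt.le)
  have hιx : ι x ^ 2 = (((Real.sqrt ((p : ℝ) ^ 4 - 1) : ℝ) : ℂ)) ^ 2 := by
    rw [← map_pow, hx, ← Complex.ofReal_pow, Real.sq_sqrt (by linarith)]
    push_cast
    rw [map_sub, map_pow, map_natCast, map_one]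
  have htx : t x = x := by
    apply ι.injective
    rw [hι]
    rcases sq_eq_sq_iff_eq_or_eq_neg.1 hιx with h1 | h1
    · rw [h1, Complex.conj_ofReal]
    · rw [h1, map_neg, Complex.conj_ofReal]
  -- the values at `x ± i`
  have h1 : w (x + i) = w (x - i) := by
    rw [← hdec (x - i), map_sub, htx, hti, sub_neg_eq_add]
  have h2 : w (x - i) * w (x + i) = ((p : ℝ)⁻¹) ^ 4 := by
    rw [← hw.mul, ← hw.prime, ← hw.pow hp]
    congr 1
    have : (x - i) * (x + i) = x ^ 2 - i ^ 2 := by ring
    rw [this, hx, hi]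
    ring
  have hq : 0 ≤ (p : ℝ)⁻¹ := by positivity
  have h3 : w (x - i) = ((p : ℝ)⁻¹) ^ 2 := by
    rw [h1] at h2
    have h4 : w (x - i) ^ 2 = (((p : ℝ)⁻¹) ^ 2) ^ 2 := by
      rw [pow_two, h2]
      ring
    exact (pow_left_inj₀ (hw.nonneg _) (by positivity) (by norm_num)).1 h4
  have h4 : w (2 * i) ≤ ((p : ℝ)⁻¹) ^ 2 := by
    have h5 : (2 : AlgebraicClosure K) * i = (x + i) - (x - i) := by ring
    rw [h5]
    refine (hw.sub hp _ _).trans ?_
    rw [h1, h3, max_self]
  have hwi : w i = 1 := by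
    have h5 : w i ^ 2 = 1 := by rw [← hw.pow hp, hi, hw.neg_one hp]
    have h6 : w i ^ 2 = 1 ^ 2 := by rw [h5, one_pow]
    exact (pow_left_inj₀ (hw.nonneg _) (by norm_num) (by norm_num)).1 h6
  rw [hw.mul, hwi, mul_one] at h4
  have h2le : (p : ℝ)⁻¹ ≤ w 2 := by
    by_cases hp2 : p = 2
    · subst hp2
      have := hw.prime
      rw [← this]
      norm_cast
    · have h5 : ¬ (p : ℤ) ∣ 2 := by
        intro h
        have h6 : p ∣ 2 := by exact_mod_cast h
        exact hp2 ((Nat.prime_dvd_prime_iff_eq hp Nat.prime_two).1 h6)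
      have h6 := hw.int_coprime hp h5
      push_cast at h6
      rw [h6]
      exact inv_le_one_of_one_le₀ (by exact_mod_cast hp.one_lt.le)
  have hlt : ((p : ℝ)⁻¹) ^ 2 < (p : ℝ)⁻¹ := by
    have h5 : (p : ℝ)⁻¹ < 1 := inv_lt_one_of_one_lt₀ (by exact_mod_cast hp.one_lt)
    have h6 : 0 < (p : ℝ)⁻¹ := inv_pos.2 (by exact_mod_cast hp.pos)
    nlinarith
  linarith

/-- at a large finite level nothing nontrivial in a decomposition group of a finite place commutes
with a complex conjugation -/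
theorem level_cc (L : IntermediateField K (AlgebraicClosure K)) [FiniteDimensional K L]
    {T : Finset ℕ} (hT : ∀ p ∈ T, p.Prime) :
    ∃ L' : IntermediateField K (AlgebraicClosure K), FiniteDimensional K L' ∧ Normal K L' ∧
      L ≤ L' ∧ ∀ (t g : Gal(AlgebraicClosure K/K)) (w : AlgebraicClosure K → ℝ), IsCC t →
        w ∈ PL T → (∀ x, w (g x) = w x) → (∀ x ∈ L', g (t x) = t (g x)) → ∀ x ∈ L, g x = x := by
  by_contra hcon
  push Not at hcon
  let I : Type := {L' : IntermediateField K (AlgebraicClosure K) //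
    FiniteDimensional K L' ∧ Normal K L' ∧ L ≤ L'}
  let W : Type := Gal(AlgebraicClosure K/K) × Gal(AlgebraicClosure K/K) × (AlgebraicClosure K → ℝ)
  let C : Set W := Set.univ ×ˢ Set.univ ×ˢ PL T
  have hC : IsCompact C := isCompact_univ.prod (isCompact_univ.prod (isCompact_pl hT))
  have hopL : IsOpen (L.fixingSubgroup : Set (Gal(AlgebraicClosure K/K))) :=
    IntermediateField.fixingSubgroup_isOpen L
  have c1 : Continuous fun z : W => z.1 := continuous_fst
  have c2 : Continuous fun z : W => z.2.1 := continuous_fst.comp continuous_snd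
  have c3 : Continuous fun z : W => z.2.2 := continuous_snd.comp continuous_snd
  let A : Set W := {z : W | IsCC z.1} ∩ (⋂ x, {z : W | z.2.2 (z.2.1 x) = z.2.2 x}) ∩
    {z : W | ¬ ∀ x ∈ L, z.2.1 x = x}
  have hA : IsClosed A := by
    refine ((isClosed_cc.preimage c1).inter (isClosed_iInter fun x => ?_)).inter ?_
    · have hc : Continuous fun z : W => z.2.2 (z.2.1 x) := by
        rw [continuous_iff_continuousAt]
        intro z
        have h1 : {z' : W | z'.2.1 x = z.2.1 x} ∈ nhds z :=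
          ((isClopen_eval x fun y => y = z.2.1 x).2.preimage c2).mem_nhds rfl
        have h2 : (fun z' : W => z'.2.2 (z'.2.1 x)) =ᶠ[nhds z] fun z' : W => z'.2.2 (z.2.1 x) := by
          filter_upwards [h1] with z' hz'
          have h3 : z'.2.1 x = z.2.1 x := hz'
          rw [h3]
        exact ContinuousAt.congr (((continuous_apply (z.2.1 x)).comp c3).continuousAt) h2.symm
      exact isClosed_eq hc ((continuous_apply x).comp c3)
    · refine ⟨?_⟩
      have h2 : {z : W | ¬ ∀ x ∈ L, z.2.1 x = x}ᶜ = (fun z : W => z.2.1) ⁻¹'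
          (L.fixingSubgroup : Set (Gal(AlgebraicClosure K/K))) := by
        ext t
        simp only [Set.mem_compl_iff, Set.mem_ofPred_eq, not_not]
        exact (IntermediateField.mem_fixingSubgroup_iff _ _).symm
      rw [h2]
      exact hopL.preimage c2
  have hcomm : ∀ x : AlgebraicClosure K, IsClosed {z : W | z.2.1 (z.1 x) = z.1 (z.2.1 x)} := by
    intro x
    have h2 : {z : W | z.2.1 (z.1 x) = z.1 (z.2.1 x)} =
        (fun z : W => (z.1 * z.2.1)⁻¹ * (z.2.1 * z.1)) ⁻¹'
        {τ : Gal(AlgebraicClosure K/K) | τ x = x} := by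
      ext z
      rw [Set.mem_preimage, Set.mem_ofPred_eq, Set.mem_ofPred_eq]
      change _ ↔ (z.1 * z.2.1).symm (z.2.1 (z.1 x)) = x
      rw [AlgEquiv.symm_apply_eq]
      rfl
    rw [h2]
    exact (isClopen_eval x fun y => y = x).1.preimage (((c1.mul c2).inv).mul (c2.mul c1))
  let Z : I → Set W := fun L' => C ∩ (A ∩ ⋂ x : L'.1,
    {z : W | z.2.1 (z.1 (x : AlgebraicClosure K)) = z.1 (z.2.1 (x : AlgebraicClosure K))})
  have hZc : ∀ i : I, IsClosed (A ∩ ⋂ x : i.1,
      {z : W | z.2.1 (z.1 (x : AlgebraicClosure K)) = z.1 (z.2.1 (x : AlgebraicClosure K))}) :=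
    fun i => hA.inter (isClosed_iInter fun x => hcomm _)
  have hfdN : FiniteDimensional K (IntermediateField.normalClosure K L (AlgebraicClosure K)) :=
    inferInstance
  have hne : Nonempty I := ⟨⟨IntermediateField.normalClosure K L (AlgebraicClosure K), hfdN,
    inferInstance, IntermediateField.le_normalClosure L⟩⟩
  have hZn : ∀ i, (Z i).Nonempty := by
    intro i
    obtain ⟨t, g, w, ht, hw, hgw, hgt, x, hx, hgx⟩ := hcon i.1 i.2.1 i.2.2.1 i.2.2.2
    refine ⟨(t, g, w), ⟨trivial, trivial, hw⟩, ⟨⟨ht, ?_⟩, ?_⟩, ?_⟩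
    · rw [Set.mem_iInter]; exact hgw
    · exact fun h => hgx (h x hx)
    · rw [Set.mem_iInter]
      exact fun y => hgt y y.2
  have hdir : Directed (· ⊇ ·) Z := by
    intro i j
    have h1 := i.2.1
    have h2 := j.2.1
    have h3 := i.2.2.1
    have h4 := j.2.2.1
    refine ⟨⟨i.1 ⊔ j.1, IntermediateField.finiteDimensional_sup _ _,
      IntermediateField.normal_sup K (AlgebraicClosure K) i.1 j.1,
      i.2.2.2.trans le_sup_left⟩, ?_, ?_⟩
    · rintro z ⟨hz1, hz2, hz3⟩
      refine ⟨hz1, hz2, ?_⟩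
      rw [Set.mem_iInter] at hz3 ⊢
      exact fun x => hz3 ⟨x, (le_sup_left : i.1 ≤ i.1 ⊔ j.1) x.2⟩
    · rintro z ⟨hz1, hz2, hz3⟩
      refine ⟨hz1, hz2, ?_⟩
      rw [Set.mem_iInter] at hz3 ⊢
      exact fun x => hz3 ⟨x, (le_sup_right : j.1 ≤ i.1 ⊔ j.1) x.2⟩
  have hC' : IsClosed C := isClosed_univ.prod (isClosed_univ.prod (isCompact_pl hT).isClosed)
  obtain ⟨⟨t, g, w⟩, hz⟩ := IsCompact.nonempty_iInter_of_directed_nonempty_isCompact_isClosed Z
    hdir hZn (fun i => hC.inter_right (hZc i)) (fun i => hC'.inter (hZc i))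
  rw [Set.mem_iInter] at hz
  have hcomm' : g * t = t * g := by
    apply AlgEquiv.ext
    intro x
    have hfd : FiniteDimensional K (IntermediateField.adjoin K {x}) :=
      IntermediateField.adjoin.finiteDimensional (Algebra.IsIntegral.isIntegral x)
    let S : IntermediateField K (AlgebraicClosure K) := L ⊔ IntermediateField.adjoin K {x}
    let M : IntermediateField K (AlgebraicClosure K) :=
      IntermediateField.normalClosure K S (AlgebraicClosure K)
    have hfd2 : FiniteDimensional K S := IntermediateField.finiteDimensional_sup _ _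
    have hM : S ≤ M := IntermediateField.le_normalClosure S
    have hLM : L ≤ M := (le_sup_left : L ≤ S).trans hM
    have h1 := (hz ⟨M, inferInstance, inferInstance, hLM⟩).2.2
    rw [Set.mem_iInter] at h1
    exact h1 ⟨x, hM ((le_sup_right : IntermediateField.adjoin K {x} ≤ S)
      (IntermediateField.mem_adjoin_simple_self K x))⟩
  obtain ⟨i⟩ := hne
  obtain ⟨⟨-, -, p, hpT, hw⟩, ⟨⟨ht, hdec⟩, hnt⟩, -⟩ := hz i
  rw [Set.mem_iInter] at hdec
  rcases centralizer ht hcomm' with h2 | h2
  · exact hnt fun x _ => by change g x = x; rw [h2]; rfl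
  · refine cc_not_dec (hT p hpT) hw ht fun x => ?_
    rw [← h2]
    exact hdec x

end

end Pool.Agent.Q273.SQ
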