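import Pool.Agent.Q273.SQ.Fld

/-! A number field is dense in the field fixed by its decomposition group. -/

set_option autoImplicit false
set_option linter.unusedSectionVars false

namespace Pool.Agent.Q273.SQ

open NumberField Pool.Agent.Q246.BI Pool.Agent.Q246.RP Pool.Agent.Q273.SP
open scoped Classical

section
variable {K : Type} [Field K] [NumberField K]

/-- a finite level which separates the place from its conjugates -/
theorem exists_sep_level (F : IntermediateField K (AlgebraicClosure K)) [FiniteDimensional K F]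
    {w : AlgebraicClosure K → ℝ} (x : AlgebraicClosure K)
    (hx : ∀ g ∈ F.fixingSubgroup, Dec w g → g x = x) :
    ∃ R : IntermediateField K (AlgebraicClosure K), FiniteDimensional K R ∧ Normal K R ∧
      F ≤ R ∧ x ∈ R ∧ ∀ g ∈ F.fixingSubgroup, g x ≠ x → ∃ e ∈ R, w (g e) ≠ w e := by
  have hop : ∀ e : AlgebraicClosure K,
      IsOpen {g : Gal(AlgebraicClosure K/K) | w (g e) ≠ w e} := fun e =>
    (isClopen_eval e fun y => w y ≠ w e).2
  have hC : IsCompact ((F.fixingSubgroup : Set (Gal(AlgebraicClosure K/K))) ∩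
      {g | g x ≠ x}) := by
    refine IsClosed.isCompact (IsClosed.inter ?_ ?_)
    · exact F.fixingSubgroup_isClosed
    · exact (isClopen_eval x fun y => y ≠ x).1
  obtain ⟨t, ht⟩ := hC.elim_finite_subcover
    (fun e : AlgebraicClosure K => {g : Gal(AlgebraicClosure K/K) | w (g e) ≠ w e}) hop (by
      rintro g ⟨hg, hgx⟩
      rw [Set.mem_iUnion]
      by_contra hcon
      push Not at hcon
      refine hgx (hx g hg fun e => ?_)
      have h1 := hcon e
      simpa using h1)
  let S : IntermediateField K (AlgebraicClosure K) :=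
    F ⊔ IntermediateField.adjoin K ((insert x t : Finset (AlgebraicClosure K)) : Set _)
  have hfd1 : FiniteDimensional K (IntermediateField.adjoin K
      ((insert x t : Finset (AlgebraicClosure K)) : Set (AlgebraicClosure K))) :=
    IntermediateField.finiteDimensional_adjoin fun y _ => Algebra.IsIntegral.isIntegral y
  have hfd : FiniteDimensional K S := IntermediateField.finiteDimensional_sup _ _
  have hle : S ≤ IntermediateField.normalClosure K S (AlgebraicClosure K) :=
    IntermediateField.le_normalClosure S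
  have hmem : ∀ y ∈ insert x t, y ∈ IntermediateField.normalClosure K S (AlgebraicClosure K) := by
    intro y hy
    refine hle ((le_sup_right : IntermediateField.adjoin K _ ≤ S) ?_)
    exact IntermediateField.subset_adjoin K _ hy
  refine ⟨IntermediateField.normalClosure K S (AlgebraicClosure K), inferInstance, inferInstance,
    le_sup_left.trans hle, hmem x (Finset.mem_insert_self _ _), fun g hg hgx => ?_⟩
  obtain ⟨e, het, he⟩ := Set.mem_iUnion₂.1 (ht ⟨hg, hgx⟩)
  exact ⟨e, hmem e (Finset.mem_insert_of_mem het), he⟩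

/-- **Density.** An element fixed by the decomposition group over `F` is a limit of elements
of `F`. -/
theorem dense {p : ℕ} (hp : p.Prime) (F : IntermediateField K (AlgebraicClosure K))
    [FiniteDimensional K F] {w : AlgebraicClosure K → ℝ} (hw : IsPl p w) (x : AlgebraicClosure K)
    (hx : ∀ g ∈ F.fixingSubgroup, Dec w g → g x = x) {ε : ℝ} (hε : 0 < ε) :
    ∃ y ∈ F, w (y - x) < ε := by
  obtain ⟨R, hRfd, hRn, hFR, hxR, hsep⟩ := exists_sep_level F x hx
  -- the places of `R`
  let v : (R ≃ₐ[K] R) → AbsoluteValue R ℝ := fun γ =>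
    { toFun := fun y => w (γ y : R)
      map_mul' := fun a b => by
        rw [map_mul]
        exact hw.mul _ _
      nonneg' := fun y => hw.nonneg _
      eq_zero' := fun y => by
        constructor
        · intro h
          have h1 := hw.eq_zero hp h
          have h2 : γ y = 0 := Subtype.ext h1
          exact (map_eq_zero γ).1 h2
        · rintro rfl
          rw [map_zero]
          exact hw.zero
      add_le' := fun a b => by
        rw [map_add]
        exact (hw.add _ _).trans (max_le_add_of_nonneg (hw.nonneg _) (hw.nonneg _)) }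
  have hv : ∀ γ y, v γ y = w (γ y : R) := fun γ y => rfl
  have hpl : ∀ γ, IsPl p (fun y : R => v γ y) := fun γ =>
    { nonneg := fun y => (v γ).nonneg y
      zero := (v γ).map_zero
      mul := fun a b => (v γ).map_mul a b
      add := fun a b => by
        rw [hv, hv, hv, map_add]
        exact hw.add _ _
      prime := by
        rw [hv, map_natCast]
        exact hw.prime }
  let ι : Type := {u : AbsoluteValue R ℝ // u ∈ Set.range v}
  have hι : Finite ι := Set.finite_range v
  have hnt : ∀ i : ι, i.1.IsNontrivial := by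
    rintro ⟨_, γ, rfl⟩
    have h1 := (hpl γ).prime
    have hpR : ((p : R)) ≠ 0 := by exact_mod_cast hp.ne_zero
    refine ⟨(p : R), hpR, ?_⟩
    change v γ (p : R) ≠ 1
    have h2 : v γ (p : R) = (p : ℝ)⁻¹ := h1
    rw [h2]
    exact (inv_lt_one_of_one_lt₀ (by exact_mod_cast hp.one_lt)).ne
  have hpw : Pairwise fun i j : ι => ¬ i.1.IsEquiv j.1 := by
    rintro ⟨_, γ, rfl⟩ ⟨_, γ', rfl⟩ hne heq
    have hne' : v γ ≠ v γ' := fun h => hne (Subtype.ext h)
    obtain ⟨e, he⟩ : ∃ e, v γ e ≠ v γ' e := by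
      by_contra hcon
      push Not at hcon
      exact hne' (AbsoluteValue.ext hcon)
    obtain ⟨c, -, hc1, hc2⟩ := exists_sep hp hp (hpl γ) (hpl γ') ⊤ (e := e) trivial he
    have h1 := heq.lt_one_iff.1 hc1
    exact absurd hc2 (not_lt.2 (le_of_lt h1))
  obtain ⟨c, hc1, hc2⟩ := AbsoluteValue.exists_one_lt_lt_one_pi_of_not_isEquiv
    (v := fun i : ι => i.1) hnt hpw ⟨v 1, 1, rfl⟩
  have hc2' : ∀ γ, v γ ≠ v 1 → v γ c < 1 := by
    intro γ hγ
    exact hc2 ⟨v γ, γ, rfl⟩ fun h => hγ (congrArg Subtype.val h)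
  have hc1' : 1 < v 1 c := hc1
  -- the group of `R` over `F`
  let Γ : Finset (R ≃ₐ[K] R) := Finset.univ.filter fun γ =>
    ∀ a (ha : a ∈ F), γ ⟨a, hFR ha⟩ = ⟨a, hFR ha⟩
  let D : Finset (R ≃ₐ[K] R) := Γ.filter fun γ => v γ = v 1
  have h1Γ : (1 : R ≃ₐ[K] R) ∈ Γ := Finset.mem_filter.2 ⟨Finset.mem_univ _, fun a ha => rfl⟩
  have h1D : (1 : R ≃ₐ[K] R) ∈ D := Finset.mem_filter.2 ⟨h1Γ, rfl⟩
  have hd : (D.card : AlgebraicClosure K) ≠ 0 := by
    exact_mod_cast (Finset.card_pos.2 ⟨1, h1D⟩).ne'
  have hlift : ∀ γ ∈ Γ, ∃ g ∈ F.fixingSubgroup, ∀ y : R,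
      g (y : AlgebraicClosure K) = (γ y : R) := by
    intro γ hγ
    obtain ⟨g, hg⟩ := AlgEquiv.restrictNormalHom_surjective (AlgebraicClosure K) (K₁ := R) γ
    have hgy : ∀ y : R, g (y : AlgebraicClosure K) = (γ y : R) := by
      intro y
      have h2 := AlgEquiv.restrictNormal_commutes g R y
      have h3 : AlgEquiv.restrictNormal g R = γ := hg
      rw [h3] at h2
      exact h2.symm
    refine ⟨g, (IntermediateField.mem_fixingSubgroup_iff _ _).2 fun a ha => ?_, hgy⟩
    have h4 := hgy ⟨a, hFR ha⟩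
    rw [(Finset.mem_filter.1 hγ).2 a ha] at h4
    exact h4
  have hDx : ∀ γ ∈ D, γ ⟨x, hxR⟩ = ⟨x, hxR⟩ := by
    intro γ hγ
    obtain ⟨hγΓ, hγv⟩ := Finset.mem_filter.1 hγ
    obtain ⟨g, hg, hgy⟩ := hlift γ hγΓ
    by_contra hne
    have hgx : g x ≠ x := by
      intro h
      apply hne
      apply Subtype.ext
      rw [← hgy ⟨x, hxR⟩]
      exact h
    obtain ⟨e, heR, he⟩ := hsep g hg hgx
    apply he
    have h1 : v γ ⟨e, heR⟩ = v 1 ⟨e, heR⟩ := by rw [hγv]
    rw [hv, hv, ← hgy ⟨e, heR⟩] at h1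
    exact h1
  -- the approximations
  let z : ℕ → R := fun n => c ^ n / (1 + c ^ n)
  have hz1 : ∀ n, 0 < n → v 1 (z n - 1) = (v 1 c)⁻¹ ^ n := by
    intro n hn
    have hpl1 := hpl 1
    have h1 : v 1 (1 + c ^ n) = v 1 c ^ n := by
      have h2 : v 1 1 < v 1 (c ^ n) := by
        rw [map_one, map_pow]
        exact one_lt_pow₀ hc1' hn.ne'
      have h3 := hpl1.add_eq hp h2
      rw [← map_pow]
      exact h3
    have hne : (1 + c ^ n : R) ≠ 0 := by
      intro h
      rw [h, map_zero] at h1
      have := pow_pos (zero_lt_one.trans hc1') n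
      rw [← h1] at this
      exact lt_irrefl _ this
    have h4 : z n - 1 = -(1 + c ^ n)⁻¹ := by
      change c ^ n / (1 + c ^ n) - 1 = _
      field_simp
      ring
    rw [h4, AbsoluteValue.map_neg, map_inv₀, h1, inv_pow]
  have hz2 : ∀ γ, v γ ≠ v 1 → ∀ n, 0 < n → v γ (z n) = v γ c ^ n := by
    intro γ hγ n hn
    have h1 : v γ (1 + c ^ n) = 1 := by
      have h2 : v γ (c ^ n) < v γ 1 := by
        rw [map_one, map_pow]
        exact pow_lt_one₀ ((v γ).nonneg _) (hc2' γ hγ) hn.ne'
      have h3 := (hpl γ).add_eq hp h2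
      rw [add_comm, ← (v γ).map_one]
      exact h3
    change v γ (c ^ n / (1 + c ^ n)) = _
    rw [map_div₀, h1, div_one, map_pow]
  have hδ : 0 < ε * w (D.card : AlgebraicClosure K) := mul_pos hε (hw.pos hp hd)
  obtain ⟨n, hn0, hn1, hn2⟩ : ∃ n : ℕ, 0 < n ∧
      w x * (v 1 c)⁻¹ ^ n < ε * w (D.card : AlgebraicClosure K) ∧
      ∀ γ ∈ Γ, v γ ≠ v 1 → v γ ⟨x, hxR⟩ * v γ c ^ n < ε * w (D.card : AlgebraicClosure K) := by
    have e1 : ∀ᶠ n : ℕ in Filter.atTop,
        w x * (v 1 c)⁻¹ ^ n < ε * w (D.card : AlgebraicClosure K) := by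
      have h2 := (tendsto_pow_atTop_nhds_zero_of_lt_one (inv_nonneg.2 ((v 1).nonneg c))
        (inv_lt_one_of_one_lt₀ hc1')).const_mul (w x)
      rw [mul_zero] at h2
      exact h2.eventually (gt_mem_nhds hδ)
    have e2 : ∀ᶠ n : ℕ in Filter.atTop, ∀ γ ∈ Γ, v γ ≠ v 1 →
        v γ ⟨x, hxR⟩ * v γ c ^ n < ε * w (D.card : AlgebraicClosure K) := by
      rw [Filter.eventually_all_finset]
      intro γ _
      by_cases hγ : v γ = v 1
      · exact Filter.Eventually.of_forall fun n h => absurd hγ h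
      have h2 := (tendsto_pow_atTop_nhds_zero_of_lt_one ((v γ).nonneg c) (hc2' γ hγ)).const_mul
        (v γ ⟨x, hxR⟩)
      rw [mul_zero] at h2
      filter_upwards [h2.eventually (gt_mem_nhds hδ)] with n hn _
      exact hn
    obtain ⟨n, ⟨h3, h4⟩, h5⟩ := ((e1.and e2).and (Filter.eventually_gt_atTop 0)).exists
    exact ⟨n, h5, h3, h4⟩
  let X : R := ⟨x, hxR⟩
  let y : AlgebraicClosure K := (D.card : AlgebraicClosure K)⁻¹ *
    ∑ γ ∈ Γ, ((γ (z n * X) : R) : AlgebraicClosure K)
  refine ⟨y, ?_, ?_⟩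
  · -- `y` is fixed
    have h1 : y ∈ IntermediateField.fixedField F.fixingSubgroup := by
      rw [IntermediateField.mem_fixedField_iff]
      intro g hg
      change g ((D.card : AlgebraicClosure K)⁻¹ * ∑ γ ∈ Γ, ((γ (z n * X) : R) :
        AlgebraicClosure K)) = _
      rw [map_mul, map_inv₀, map_natCast, map_sum]
      congr 1
      let g' : R ≃ₐ[K] R := AlgEquiv.restrictNormal g R
      have hg' : ∀ y : R, g (y : AlgebraicClosure K) = (g' y : R) := fun y =>
        (AlgEquiv.restrictNormal_commutes g R y).symm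
      have hg'F : ∀ a (ha : a ∈ F), g' ⟨a, hFR ha⟩ = ⟨a, hFR ha⟩ := by
        intro a ha
        apply Subtype.ext
        rw [← hg' ⟨a, hFR ha⟩]
        exact (IntermediateField.mem_fixingSubgroup_iff _ _).1 hg a ha
      refine Finset.sum_bij' (fun γ _ => g' * γ) (fun γ _ => g'⁻¹ * γ) ?_ ?_ ?_ ?_ ?_
      · intro γ hγ
        refine Finset.mem_filter.2 ⟨Finset.mem_univ _, fun a ha => ?_⟩
        change g' (γ _) = _
        rw [(Finset.mem_filter.1 hγ).2 a ha, hg'F a ha]
      · intro γ hγ
        refine Finset.mem_filter.2 ⟨Finset.mem_univ _, fun a ha => ?_⟩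
        change g'.symm (γ _) = _
        rw [(Finset.mem_filter.1 hγ).2 a ha, AlgEquiv.symm_apply_eq, hg'F a ha]
      · intro γ _
        exact inv_mul_cancel_left _ _
      · intro γ _
        exact mul_inv_cancel_left _ _
      · intro γ _
        exact hg' _
    rwa [InfiniteGalois.fixedField_fixingSubgroup] at h1
  · have h1 : y - x = (D.card : AlgebraicClosure K)⁻¹ * ∑ γ ∈ Γ,
        (((γ (z n * X) : R) : AlgebraicClosure K) - if v γ = v 1 then x else 0) := by
      rw [Finset.sum_sub_distrib, ← Finset.sum_filter, Finset.sum_const, nsmul_eq_mul, mul_sub]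
      change _ - x = _ - (D.card : AlgebraicClosure K)⁻¹ * ((D.card : AlgebraicClosure K) * x)
      rw [inv_mul_cancel_left₀ hd]
    rw [h1, hw.mul, hw.inv hp]
    have h2 : w (∑ γ ∈ Γ, (((γ (z n * X) : R) : AlgebraicClosure K) -
        if v γ = v 1 then x else 0)) < ε * w (D.card : AlgebraicClosure K) := by
      refine hw.finset_sum_lt _ _ hδ fun γ hγ => ?_
      by_cases hγv : v γ = v 1
      · rw [if_pos hγv]
        have hγD : γ ∈ D := Finset.mem_filter.2 ⟨hγ, hγv⟩
        have h3 : γ (z n * X) = γ (z n) * X := by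
          rw [map_mul]
          congr 1
          exact hDx γ hγD
        have h4 : ((γ (z n * X) : R) : AlgebraicClosure K) - x =
            x * ((γ (z n - 1) : R) : AlgebraicClosure K) := by
          rw [h3, map_sub, map_one]
          change ((γ (z n) : R) : AlgebraicClosure K) * x - x =
            x * (((γ (z n) : R) : AlgebraicClosure K) - 1)
          ring
        rw [h4, hw.mul]
        have h5 : w ((γ (z n - 1) : R) : AlgebraicClosure K) = (v 1 c)⁻¹ ^ n := by
          rw [← hv, hγv, hz1 n hn0]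
        rw [h5]
        exact hn1
      · rw [if_neg hγv, sub_zero, ← hv, map_mul, hz2 γ hγv n hn0, mul_comm]
        exact hn2 γ hγ hγv
    rw [inv_mul_eq_div, div_lt_iff₀ (hw.pos hp hd)]
    exact h2

end

end Pool.Agent.Q273.SQ
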