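import Pool.Agent.Q273.SQ.Lev
import Pool.Agent.Q5.SO.Field

/-! The fields of the hyperelementary subgroups of a large finite level. -/

set_option autoImplicit false
set_option linter.unusedSectionVars false

namespace Pool.Agent.Q273.SQ

open NumberField Pool.Agent.Q246.BI Pool.Agent.Q246.RP Pool.Agent.Q273.SP
open Pool.Agent.Q5.SO (Hyper)
open scoped Classical

section
variable {K : Type} [Field K] [NumberField K]

/-- local elements: of the inertia groups of the places, and of the decomposition groups of the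
places above `T` -/
def Loc (T : Finset ℕ) (p : ℕ) (w : AlgebraicClosure K → ℝ)
    (g : Gal(AlgebraicClosure K/K)) : Prop :=
  Ine w g ∨ (p ∈ T ∧ Dec w g)

/-- `F` is totally complex and all places at which `F N/F` is not trivial lie above one prime
of `N` -/
def TypeI (T : Finset ℕ) (N F : IntermediateField K (AlgebraicClosure K)) : Prop :=
  IsEmpty (F →+* ℝ) ∧ ∀ p q : ℕ, p.Prime → q.Prime → ∀ w u : AlgebraicClosure K → ℝ,
    IsPl p w → IsPl q u →
    (∃ g ∈ F.fixingSubgroup, Loc T p w g ∧ ¬ ∀ x ∈ N, g x = x) →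
    (∃ g ∈ F.fixingSubgroup, Loc T q u g ∧ ¬ ∀ x ∈ N, g x = x) →
    ∀ y : 𝓞 N, (w ((y : N) : AlgebraicClosure K) < 1 ↔ u ((y : N) : AlgebraicClosure K) < 1)

/-- for a prime number `l`, all local groups of `F N/F` are `l`-groups -/
def TypeII (T : Finset ℕ) (N F : IntermediateField K (AlgebraicClosure K)) : Prop :=
  ∃ l : ℕ, l.Prime ∧ (l = 2 ∨ IsEmpty (F →+* ℝ)) ∧ ∀ (p : ℕ), p.Prime →
    ∀ w : AlgebraicClosure K → ℝ, IsPl p w → ∀ g ∈ F.fixingSubgroup, Loc T p w g →
      ∃ k : ℕ, ∀ x ∈ N, (g ^ l ^ k) x = x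

theorem Dec.mul' {w : AlgebraicClosure K → ℝ} {g h : Gal(AlgebraicClosure K/K)} (hg : Dec w g)
    (hh : Dec w h) : Dec w (g * h) := fun x => by
  change w (g (h x)) = w x
  rw [hg, hh]

theorem Dec.pow' {w : AlgebraicClosure K → ℝ} {g : Gal(AlgebraicClosure K/K)} (hg : Dec w g)
    (n : ℕ) : Dec w (g ^ n) := by
  induction n with
  | zero => exact fun x => by rw [pow_zero]; rfl
  | succ n ih => rw [pow_succ]; exact Dec.mul' ih hg

/-- the subgroup of a fixed field -/
theorem mem_lift (L : IntermediateField K (AlgebraicClosure K)) [FiniteDimensional K L]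
    [Normal K L] (B : Subgroup (L ≃ₐ[K] L)) (g : Gal(AlgebraicClosure K/K)) :
    g ∈ (IntermediateField.lift (IntermediateField.fixedField B)).fixingSubgroup ↔
      AlgEquiv.restrictNormalHom L g ∈ B := by
  have hgal : IsGalois K L := {}
  have h1 : AlgEquiv.restrictNormalHom L g ∈ B ↔
      AlgEquiv.restrictNormalHom L g ∈ (IntermediateField.fixedField B).fixingSubgroup := by
    rw [IntermediateField.fixingSubgroup_fixedField B]
  rw [h1, IntermediateField.mem_fixingSubgroup_iff, IntermediateField.mem_fixingSubgroup_iff]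
  constructor
  · intro h x hx
    apply Subtype.ext
    have h2 := AlgEquiv.restrictNormal_commutes g L x
    change ((AlgEquiv.restrictNormal g L x : L) : AlgebraicClosure K) = x
    have h3 : ((AlgEquiv.restrictNormal g L x : L) : AlgebraicClosure K) =
      g (x : AlgebraicClosure K) := h2
    rw [h3]
    apply h
    exact ⟨x, hx, rfl⟩
  · rintro h _ ⟨x, hx, rfl⟩
    have h2 := AlgEquiv.restrictNormal_commutes g L x
    have h3 : ((AlgEquiv.restrictNormal g L x : L) : AlgebraicClosure K) =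
      g (x : AlgebraicClosure K) := h2
    change g (x : AlgebraicClosure K) = (x : AlgebraicClosure K)
    rw [← h3]
    have h4 := h x hx
    exact congrArg Subtype.val h4

theorem res_eq (L : IntermediateField K (AlgebraicClosure K)) [Normal K L]
    (a b : Gal(AlgebraicClosure K/K)) :
    AlgEquiv.restrictNormalHom L a = AlgEquiv.restrictNormalHom L b ↔ ∀ x ∈ L, a x = b x := by
  constructor
  · intro h x hx
    have h2 := AlgEquiv.restrictNormal_commutes a L ⟨x, hx⟩
    have h3 := AlgEquiv.restrictNormal_commutes b L ⟨x, hx⟩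
    have h4 : AlgEquiv.restrictNormal a L = AlgEquiv.restrictNormal b L := h
    rw [h4] at h2
    exact h2.symm.trans h3
  · intro h
    apply AlgEquiv.ext
    intro x
    apply Subtype.ext
    have h2 := AlgEquiv.restrictNormal_commutes a L x
    have h3 := AlgEquiv.restrictNormal_commutes b L x
    exact h2.trans ((h x x.2).trans h3.symm)

/-- **The fields of the hyperelementary subgroups.** -/
theorem hyper_types {T : Finset ℕ} (hT : ∀ p ∈ T, p.Prime)
    (N : IntermediateField K (AlgebraicClosure K)) [FiniteDimensional K N] [Normal K N] :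
    ∃ (L : IntermediateField K (AlgebraicClosure K)) (_ : FiniteDimensional K L)
      (_ : Normal K L), N ≤ L ∧ ∀ B : Subgroup (L ≃ₐ[K] L), Hyper B →
        TypeI T N (IntermediateField.lift (IntermediateField.fixedField B)) ∨
        TypeII T N (IntermediateField.lift (IntermediateField.fixedField B)) := by
  obtain ⟨T₀, hT₀, hunr⟩ := unramified N
  have hT' : ∀ p ∈ T ∪ T₀, p.Prime := by
    intro p hp
    rcases Finset.mem_union.1 hp with h | h
    · exact hT p h
    · exact hT₀ p h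
  obtain ⟨Y, hY, hsep⟩ := exists_separating N hT'
  obtain ⟨L₁, hfd₁, hn₁, hNL₁, hlev⟩ := level_hyp N hT' Y hY
  obtain ⟨L₂, hfd₂, hn₂, hNL₂, hcc⟩ := level_hyp_cc N hT'
  obtain ⟨L₃, hfd₃, hn₃, hNL₃, hbig⟩ := exists_big N
  have hfd4 : FiniteDimensional K (L₂ ⊔ L₃ : IntermediateField K (AlgebraicClosure K)) :=
    IntermediateField.finiteDimensional_sup _ _
  have hn4 : Normal K (L₂ ⊔ L₃ : IntermediateField K (AlgebraicClosure K)) :=
    IntermediateField.normal_sup K (AlgebraicClosure K) _ _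
  let L : IntermediateField K (AlgebraicClosure K) := L₁ ⊔ (L₂ ⊔ L₃)
  have hfd : FiniteDimensional K L := IntermediateField.finiteDimensional_sup _ _
  have hn : Normal K L := IntermediateField.normal_sup K (AlgebraicClosure K) _ _
  have h1L : L₁ ≤ L := le_sup_left
  have h2L : L₂ ≤ L := (le_sup_left : L₂ ≤ L₂ ⊔ L₃).trans (le_sup_right : L₂ ⊔ L₃ ≤ L)
  have h3L : L₃ ≤ L := (le_sup_right : L₃ ≤ L₂ ⊔ L₃).trans (le_sup_right : L₂ ⊔ L₃ ≤ L)
  refine ⟨L, hfd, hn, hNL₁.trans h1L, fun B hB => ?_⟩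
  obtain ⟨l, hl, C, hCn, hCc, hCl, hCp⟩ := hB
  let ρ : Gal(AlgebraicClosure K/K) →* (L ≃ₐ[K] L) := AlgEquiv.restrictNormalHom L
  have hmem : ∀ g : Gal(AlgebraicClosure K/K),
      g ∈ (IntermediateField.lift (IntermediateField.fixedField B)).fixingSubgroup ↔ ρ g ∈ B :=
    mem_lift L B
  set F := IntermediateField.lift (IntermediateField.fixedField B) with hF
  -- elements over the cyclic subgroup
  let S : Set (Gal(AlgebraicClosure K/K)) := {c | ∃ h : ρ c ∈ B, (⟨ρ c, h⟩ : B) ∈ C}
  have hScomm : ∀ a ∈ S, ∀ b ∈ S, ρ (a * b) = ρ (b * a) := by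
    rintro a ⟨ha, haC⟩ b ⟨hb, hbC⟩
    obtain ⟨⟨z, hz⟩, hz'⟩ := hCc
    obtain ⟨i, hi⟩ := hz' ⟨_, haC⟩
    obtain ⟨j, hj⟩ := hz' ⟨_, hbC⟩
    have h1 : (⟨_, haC⟩ : C) * ⟨_, hbC⟩ = (⟨_, hbC⟩ : C) * ⟨_, haC⟩ := by
      rw [← hi, ← hj]
      change (⟨z, hz⟩ : C) ^ i * (⟨z, hz⟩ : C) ^ j = (⟨z, hz⟩ : C) ^ j * (⟨z, hz⟩ : C) ^ i
      rw [← zpow_add, ← zpow_add, add_comm]
    rw [map_mul, map_mul]
    exact congrArg (fun y : C => ((y : B) : L ≃ₐ[K] L)) h1
  have hSconj : ∀ g ∈ F.fixingSubgroup, ∀ c ∈ S, g * c * g⁻¹ ∈ S := by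
    rintro g hg c ⟨hc, hcC⟩
    have hgB := (hmem g).1 hg
    have h1 := hCn.conj_mem _ hcC ⟨ρ g, hgB⟩
    refine ⟨?_, ?_⟩
    · rw [map_mul, map_mul, map_inv]
      exact B.mul_mem (B.mul_mem hgB hc) (B.inv_mem hgB)
    · convert h1 using 1
      apply Subtype.ext
      change ρ (g * c * g⁻¹) = ρ g * ρ c * (ρ g)⁻¹
      rw [map_mul, map_mul, map_inv]
  have hSpow : ∀ g ∈ F.fixingSubgroup, ∃ k : ℕ, g ^ l ^ k ∈ S := by
    intro g hg
    have hgB := (hmem g).1 hg
    obtain ⟨k, hk⟩ := hCp ⟨ρ g, hgB⟩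
    refine ⟨k, ?_, ?_⟩
    · rw [map_pow]
      exact B.pow_mem hgB _
    · convert hk using 1
      apply Subtype.ext
      change ρ (g ^ l ^ k) = (ρ g) ^ l ^ k
      rw [map_pow]
  -- commutators at the level
  have hcom : ∀ (L₀ : IntermediateField K (AlgebraicClosure K)), L₀ ≤ L →
      ∀ a ∈ S, ∀ b ∈ S, ∀ x ∈ L₀, ((a * b)⁻¹ * (b * a)) x = x := by
    intro L₀ hL₀ a ha b hb x hx
    have h1 : ρ ((a * b)⁻¹ * (b * a)) = ρ 1 := by
      rw [map_mul, map_inv, hScomm a ha b hb, inv_mul_cancel, map_one]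
    exact (res_eq L _ _).1 h1 x (hL₀ hx)
  -- local elements belong to the decomposition groups above `T ∪ T₀`
  have hloc : ∀ (p : ℕ) (w : AlgebraicClosure K → ℝ), p.Prime → IsPl p w →
      ∀ g, Loc T p w g → (¬ ∀ x ∈ N, g x = x) → w ∈ PL (T ∪ T₀) ∧ Dec w g := by
    intro p w hp hw g hg hgN
    rcases hg with hg | ⟨hpT, hg⟩
    · refine ⟨⟨p, ?_, hw⟩, hg.1⟩
      by_contra hpT
      exact hgN (hunr p hp (fun h => hpT (Finset.mem_union_right _ h)) w hw g hg.2)
    · exact ⟨⟨p, Finset.mem_union_left _ hpT, hw⟩, hg⟩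
  by_cases hA : ∃ c ∈ S, ∃ w ∈ PL (T ∪ T₀), Dec w c ∧ ¬ ∀ x ∈ N, c x = x
  · left
    obtain ⟨c, hc, w₀, hw₀, hcw₀, hcN⟩ := hA
    constructor
    · by_contra hne
      rw [not_isEmpty_iff] at hne
      obtain ⟨t, ht, htF'⟩ := real_cc F hne
      have htF : t ∈ F.fixingSubgroup := (IntermediateField.mem_fixingSubgroup_iff _ _).2 htF'
      exact hcc c t w₀ hw₀ ht hcw₀ hcN (hcom L₂ h2L c hc _ (hSconj t htF c hc))
    · have key : ∀ (p : ℕ) (w : AlgebraicClosure K → ℝ), p.Prime → IsPl p w →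
          (∃ g ∈ F.fixingSubgroup, Loc T p w g ∧ ¬ ∀ x ∈ N, g x = x) →
          ∀ y : 𝓞 N, (w₀ ((y : N) : AlgebraicClosure K) < 1 ↔
            w ((y : N) : AlgebraicClosure K) < 1) := by
        rintro p w hp hw ⟨g, hgF, hgl, hgN⟩
        obtain ⟨hwP, hgw⟩ := hloc p w hp hw g hgl hgN
        exact hsep w₀ w hw₀ hwP (hlev c g w₀ w hw₀ hwP hcw₀ hgw hcN hgN
          (hcom L₁ h1L c hc _ (hSconj g hgF c hc)))
      intro p q hp hq w u hw hu hbw hbu y
      exact (key p w hp hw hbw y).symm.trans (key q u hq hu hbu y)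
  · right
    push Not at hA
    have hl' : ∀ (p : ℕ), p.Prime → ∀ w : AlgebraicClosure K → ℝ, IsPl p w →
        ∀ g ∈ F.fixingSubgroup, Loc T p w g → ∃ k : ℕ, ∀ x ∈ N, (g ^ l ^ k) x = x := by
      intro p hp w hw g hgF hgl
      by_cases hgN : ∀ x ∈ N, g x = x
      · refine ⟨0, fun x hx => ?_⟩
        rw [pow_zero, pow_one]
        exact hgN x hx
      · obtain ⟨hwP, hgw⟩ := hloc p w hp hw g hgl hgN
        obtain ⟨k, hk⟩ := hSpow g hgF
        exact ⟨k, hA _ hk w hwP (Dec.pow' hgw _)⟩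
    by_cases hreal : IsEmpty (F →+* ℝ)
    · exact ⟨l, hl, Or.inr hreal, hl'⟩
    rw [not_isEmpty_iff] at hreal
    obtain ⟨t, ht, htF'⟩ := real_cc F hreal
    have htF : t ∈ F.fixingSubgroup := (IntermediateField.mem_fixingSubgroup_iff _ _).2 htF'
    by_cases hl2 : l = 2
    · exact ⟨l, hl, Or.inl hl2, hl'⟩
    refine ⟨2, Nat.prime_two, Or.inl rfl, fun p hp w hw g hgF hgl => ⟨1, ?_⟩⟩
    -- `t` belongs to the cyclic group
    have ht2 : t * t = 1 := cc_sq ht
    have htS : t ∈ S := by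
      obtain ⟨k, hk⟩ := hSpow t htF
      have hodd : Odd (l ^ k) := (hl.odd_of_ne_two hl2).pow
      obtain ⟨m, hm⟩ := hodd
      have h1 : t ^ l ^ k = t := by
        rw [hm, pow_succ, pow_mul, sq, ht2, one_pow, one_mul]
      rwa [h1] at hk
    -- its conjugates are equal to it
    have hconj : ∀ g ∈ F.fixingSubgroup, ρ (g * t * g⁻¹) = ρ t := by
      intro g hg
      obtain ⟨h1, h1C⟩ := htS
      obtain ⟨h2, h2C⟩ := hSconj g hg t ⟨h1, h1C⟩
      have e1 : (⟨_, h1C⟩ : C) * ⟨_, h1C⟩ = 1 := by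
        apply Subtype.ext
        apply Subtype.ext
        change ρ t * ρ t = 1
        rw [← map_mul, ht2, map_one]
      have e2 : (⟨_, h2C⟩ : C) * ⟨_, h2C⟩ = 1 := by
        apply Subtype.ext
        apply Subtype.ext
        change ρ (g * t * g⁻¹) * ρ (g * t * g⁻¹) = 1
        rw [← map_mul]
        have : g * t * g⁻¹ * (g * t * g⁻¹) = g * (t * t) * g⁻¹ := by group
        rw [this, ht2, mul_one, mul_inv_cancel, map_one]
      by_cases h3 : ρ t = 1
      · rw [map_mul, map_mul, h3, map_inv, mul_one, mul_inv_cancel]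
      · have h4 : ρ (g * t * g⁻¹) ≠ 1 := by
          intro h4
          apply h3
          have h5 : t = g⁻¹ * (g * t * g⁻¹) * g := by group
          rw [h5, map_mul, map_mul, h4, mul_one, ← map_mul, inv_mul_cancel, map_one]
        -- the unique element of order two of a cyclic group
        have hfin : Finite C := inferInstance
        have hcard := IsCyclic.card_pow_eq_one_le (α := C) (n := 2) two_pos
        by_contra hne
        have hsub : ({1, ⟨_, h1C⟩, ⟨_, h2C⟩} : Finset C) ⊆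
            Finset.univ.filter fun a : C => a ^ 2 = 1 := by
          intro a ha
          rw [Finset.mem_filter]
          refine ⟨Finset.mem_univ _, ?_⟩
          rw [Finset.mem_insert, Finset.mem_insert, Finset.mem_singleton] at ha
          rcases ha with rfl | rfl | rfl
          · exact one_pow 2
          · rw [sq]; exact e1
          · rw [sq]; exact e2
        have h5 := (Finset.card_le_card hsub).trans hcard
        have h6 : ({1, ⟨_, h1C⟩, ⟨_, h2C⟩} : Finset C).card = 3 := by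
          rw [Finset.card_insert_of_notMem, Finset.card_insert_of_notMem, Finset.card_singleton]
          · rw [Finset.mem_singleton]
            intro h7
            exact hne (congrArg (fun y : C => ((y : B) : L ≃ₐ[K] L)) h7).symm
          · rw [Finset.mem_insert, Finset.mem_singleton]
            rintro (h7 | h7)
            · exact h3 (congrArg (fun y : C => ((y : B) : L ≃ₐ[K] L)) h7).symm
            · exact h4 (congrArg (fun y : C => ((y : B) : L ≃ₐ[K] L)) h7).symm
        omega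
    have hgt : ∀ x ∈ L₃, g (t x) = t (g x) := by
      have h1 : ρ (g * t) = ρ (t * g) := by
        have h2 := hconj g hgF
        have h3 : g * t = (g * t * g⁻¹) * g := by group
        rw [h3, map_mul, h2, ← map_mul]
      intro x hx
      exact (res_eq L _ _).1 h1 x (h3L hx)
    intro x hx
    rw [pow_one, sq]
    change g (g x) = x
    rcases hbig t g ht hgt with h1 | h1
    · rw [h1 x hx, h1 x hx]
    · have hgx : g x ∈ N := by
        rw [h1 x hx]
        have h2 := AlgEquiv.restrictNormal_commutes t N ⟨x, hx⟩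
        have h3 : t x = ((AlgEquiv.restrictNormal t N ⟨x, hx⟩ : N) : AlgebraicClosure K) := h2.symm
        rw [h3]
        exact Subtype.mem _
      rw [h1 _ hgx, h1 x hx]
      exact DFunLike.congr_fun ht2 x

end

end Pool.Agent.Q273.SQ
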