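import Pool.Agent.Q273.SQ.Rel
import Pool.Agent.Q273.SQ.Fld

/-! Relations between number fields with one bad place. -/

set_option autoImplicit false
set_option linter.unusedSectionVars false

namespace Pool.Agent.Q273.SQ

open NumberField Pool.Agent.Q246.BI Pool.Agent.Q246.RP Pool.Agent.Q273.SP
open Pool.Agent.Q5.SO (Hyper fq) 
open Pool.Agent.Q5 Pool.Agent.W353.NF Pool.Agent.W401.Cheb
open scoped Classical

section
variable {K : Type} [Field K] [NumberField K]

theorem fixn_lift (L : IntermediateField K (AlgebraicClosure K)) [FiniteDimensional K L]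
    [Normal K L] (B : Subgroup (L ≃ₐ[K] L)) (σ : GK K) :
    (fixn K (IntermediateField.lift (IntermediateField.fixedField B)) σ : ℤ) =
      fq B (AlgEquiv.restrictNormal σ L : L ≃ₐ[K] L) := by
  rw [← SO.fixn_fq L B σ,
    HR.fixn_congr (IntermediateField.liftAlgEquiv (IntermediateField.fixedField B)) σ]

theorem lift_restrict (L F₀ : IntermediateField K (AlgebraicClosure K)) [FiniteDimensional K L]
    [Normal K L] (hle : F₀ ≤ L) :
    IntermediateField.lift (IntermediateField.fixedField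
      (IntermediateField.restrict hle).fixingSubgroup) = F₀ := by
  have hgal : IsGalois K L := {}
  have h4 : IntermediateField.fixedField (IntermediateField.restrict hle).fixingSubgroup =
      IntermediateField.restrict hle := IsGalois.fixedField_fixingSubgroup _
  rw [h4, IntermediateField.lift_restrict]

theorem lift_le (L F₀ : IntermediateField K (AlgebraicClosure K)) [FiniteDimensional K L]
    [Normal K L] (hle : F₀ ≤ L) {B : Subgroup (L ≃ₐ[K] L)}
    (hB : B ≤ (IntermediateField.restrict hle).fixingSubgroup) :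
    F₀ ≤ IntermediateField.lift (IntermediateField.fixedField B) := by
  conv_lhs => rw [← lift_restrict L F₀ hle]
  rintro _ ⟨x, hx, rfl⟩
  refine ⟨x, ?_, rfl⟩
  have h1 : x ∈ IntermediateField.fixedField
      (IntermediateField.restrict hle).fixingSubgroup := hx
  have h2 : x ∈ IntermediateField.fixedField B := by
    rw [IntermediateField.mem_fixedField_iff] at h1 ⊢
    exact fun g hg => h1 g (hB hg)
  exact h2

theorem lift_fd (L : IntermediateField K (AlgebraicClosure K)) [FiniteDimensional K L]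
    (M : IntermediateField K L) : FiniteDimensional K (IntermediateField.lift M) :=
  FiniteDimensional.of_injective
    (IntermediateField.inclusion (IntermediateField.lift_le M)).toLinearMap
    (IntermediateField.inclusion_injective (IntermediateField.lift_le M))

/-- **The exact relation.** -/
theorem exact_over {T : Finset ℕ} (hT : ∀ p ∈ T, p.Prime)
    (N : IntermediateField K (AlgebraicClosure K)) [FiniteDimensional K N] [Normal K N]
    {F₀ : IntermediateField K (AlgebraicClosure K)} (hF₀ : F₀ ≤ N) :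
    ∃ (ι : Type) (_ : Fintype ι) (F : ι → IntermediateField K (AlgebraicClosure K)) (n : ι → ℤ),
      (∀ j, FiniteDimensional K (F j) ∧ F₀ ≤ F j ∧ (TypeI T N (F j) ∨ TypeII T N (F j))) ∧
      ∀ σ : GK K, ∑ j, n j * (fixn K (F j) σ : ℤ) = (fixn K F₀ σ : ℤ) := by
  obtain ⟨L, hfd, hn, hNL, hL⟩ := hyper_types hT N
  have hle : F₀ ≤ L := hF₀.trans hNL
  have : Fintype (Subgroup (L ≃ₐ[K] L)) := Fintype.ofFinite _
  obtain ⟨ι, hι, B, n, hB, hrel⟩ :=
    solomon_over (IntermediateField.restrict hle).fixingSubgroup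
  refine ⟨ι, hι, fun j => IntermediateField.lift (IntermediateField.fixedField (B j)), n,
    fun j => ⟨lift_fd L _, lift_le L F₀ hle (hB j).1, hL (B j) (hB j).2⟩, fun σ => ?_⟩
  have h1 : (fixn K F₀ σ : ℤ) = fq (IntermediateField.restrict hle).fixingSubgroup
      (AlgEquiv.restrictNormal σ L : L ≃ₐ[K] L) := by
    rw [← fixn_lift, lift_restrict L F₀ hle]
  rw [h1, ← hrel]
  exact Finset.sum_congr rfl fun j _ => by rw [fixn_lift]

/-- no finite place of `F N/F` is bad and all complex conjugations over `F` agree on `N` -/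
def TypeS (T : Finset ℕ) (N F : IntermediateField K (AlgebraicClosure K)) : Prop :=
  (∀ (p : ℕ), p.Prime → ∀ w : AlgebraicClosure K → ℝ, IsPl p w → ∀ g ∈ F.fixingSubgroup,
    Loc T p w g → ∀ x ∈ N, g x = x) ∧
  ∀ t ∈ F.fixingSubgroup, IsCC t → ∀ g ∈ F.fixingSubgroup,
    (∀ x ∈ N, g x = x) ∨ (∀ x ∈ N, g x = t x)

/-- **The fields of the cyclic subgroups.** -/
theorem cyc_types {T : Finset ℕ} (hT : ∀ p ∈ T, p.Prime) {M : ℕ} (hM : 0 < M)
    (N : IntermediateField K (AlgebraicClosure K)) [FiniteDimensional K N] [Normal K N] :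
    ∃ (L : IntermediateField K (AlgebraicClosure K)) (_ : FiniteDimensional K L)
      (_ : Normal K L), N ≤ L ∧ ∀ B : Subgroup (L ≃ₐ[K] L), IsCyclic B →
        M ∣ Module.finrank K (IntermediateField.lift (IntermediateField.fixedField B)) ∧
        (TypeI T N (IntermediateField.lift (IntermediateField.fixedField B)) ∨
        TypeS T N (IntermediateField.lift (IntermediateField.fixedField B))) := by
  obtain ⟨T₀, hT₀, hunr⟩ := unramified N
  have hT' : ∀ p ∈ T ∪ T₀, p.Prime := by
    intro p hp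
    rcases Finset.mem_union.1 hp with h | h
    · exact hT p h
    · exact hT₀ p h
  obtain ⟨Y, hY, hsep⟩ := exists_separating N hT'
  obtain ⟨L₁, hfd₁, hn₁, hNL₁, hlev⟩ := level_hyp N hT' Y hY
  obtain ⟨L₂, hfd₂, hn₂, hNL₂, hcc⟩ := level_hyp_cc N hT'
  obtain ⟨L₃, hfd₃, hn₃, hNL₃, hbig⟩ := exists_big N
  obtain ⟨L₄, hfd₄', hdeg⟩ := exists_deg (K := K) hM
  have hn₄ : Normal K (IntermediateField.normalClosure K L₄ (AlgebraicClosure K)) := inferInstance
  have hfd₄ : FiniteDimensional K (IntermediateField.normalClosure K L₄ (AlgebraicClosure K)) :=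
    inferInstance
  have hfd5 : FiniteDimensional K (L₃ ⊔ IntermediateField.normalClosure K L₄
    (AlgebraicClosure K) : IntermediateField K (AlgebraicClosure K)) :=
    IntermediateField.finiteDimensional_sup _ _
  have hn5 : Normal K (L₃ ⊔ IntermediateField.normalClosure K L₄
    (AlgebraicClosure K) : IntermediateField K (AlgebraicClosure K)) :=
    IntermediateField.normal_sup K (AlgebraicClosure K) _ _
  let L₅ : IntermediateField K (AlgebraicClosure K) :=
    L₃ ⊔ IntermediateField.normalClosure K L₄ (AlgebraicClosure K)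
  have hfd4 : FiniteDimensional K (L₂ ⊔ L₅ : IntermediateField K (AlgebraicClosure K)) :=
    IntermediateField.finiteDimensional_sup _ _
  have hn4 : Normal K (L₂ ⊔ L₅ : IntermediateField K (AlgebraicClosure K)) :=
    IntermediateField.normal_sup K (AlgebraicClosure K) _ _
  let L : IntermediateField K (AlgebraicClosure K) := L₁ ⊔ (L₂ ⊔ L₅)
  have hfd : FiniteDimensional K L := IntermediateField.finiteDimensional_sup _ _
  have hn : Normal K L := IntermediateField.normal_sup K (AlgebraicClosure K) _ _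
  have h1L : L₁ ≤ L := le_sup_left
  have h2L : L₂ ≤ L := (le_sup_left : L₂ ≤ L₂ ⊔ L₅).trans (le_sup_right : L₂ ⊔ L₅ ≤ L)
  have h5L : L₅ ≤ L := (le_sup_right : L₅ ≤ L₂ ⊔ L₅).trans (le_sup_right : L₂ ⊔ L₅ ≤ L)
  have h3L : L₃ ≤ L := (le_sup_left : L₃ ≤ L₅).trans h5L
  have h4L : L₄ ≤ L := (IntermediateField.le_normalClosure L₄).trans
    ((le_sup_right : IntermediateField.normalClosure K L₄ (AlgebraicClosure K) ≤ L₅).trans h5L)
  refine ⟨L, hfd, hn, hNL₁.trans h1L, fun B hB => ?_⟩
  let ρ : Gal(AlgebraicClosure K/K) →* (L ≃ₐ[K] L) := AlgEquiv.restrictNormalHom L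
  have hmem : ∀ g : Gal(AlgebraicClosure K/K),
      g ∈ (IntermediateField.lift (IntermediateField.fixedField B)).fixingSubgroup ↔ ρ g ∈ B :=
    mem_lift L B
  set F := IntermediateField.lift (IntermediateField.fixedField B) with hF
  have hcomm : ∀ a ∈ F.fixingSubgroup, ∀ b ∈ F.fixingSubgroup, ρ (a * b) = ρ (b * a) := by
    intro a ha b hb
    have ha' := (hmem a).1 ha
    have hb' := (hmem b).1 hb
    obtain ⟨⟨z, hz⟩, hz'⟩ := hB
    obtain ⟨i, hi⟩ := hz' ⟨_, ha'⟩
    obtain ⟨j, hj⟩ := hz' ⟨_, hb'⟩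
    have h1 : (⟨_, ha'⟩ : B) * ⟨_, hb'⟩ = (⟨_, hb'⟩ : B) * ⟨_, ha'⟩ := by
      rw [← hi, ← hj]
      change (⟨z, hz⟩ : B) ^ i * (⟨z, hz⟩ : B) ^ j = (⟨z, hz⟩ : B) ^ j * (⟨z, hz⟩ : B) ^ i
      rw [← zpow_add, ← zpow_add, add_comm]
    rw [map_mul, map_mul]
    exact congrArg (fun y : B => (y : L ≃ₐ[K] L)) h1
  have hcom : ∀ (L₀ : IntermediateField K (AlgebraicClosure K)), L₀ ≤ L →
      ∀ a ∈ F.fixingSubgroup, ∀ b ∈ F.fixingSubgroup, ∀ x ∈ L₀,
        ((a * b)⁻¹ * (b * a)) x = x := by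
    intro L₀ hL₀ a ha b hb x hx
    have h1 : ρ ((a * b)⁻¹ * (b * a)) = ρ 1 := by
      rw [map_mul, map_inv, hcomm a ha b hb, inv_mul_cancel, map_one]
    exact (res_eq L _ _).1 h1 x (hL₀ hx)
  have hloc : ∀ (p : ℕ) (w : AlgebraicClosure K → ℝ), p.Prime → IsPl p w →
      ∀ g, Loc T p w g → (¬ ∀ x ∈ N, g x = x) → w ∈ PL (T ∪ T₀) ∧ Dec w g := by
    intro p w hp hw g hg hgN
    rcases hg with hg | ⟨hpT, hg⟩
    · refine ⟨⟨p, ?_, hw⟩, hg.1⟩
      by_contra hpT
      exact hgN (hunr p hp (fun h => hpT (Finset.mem_union_right _ h)) w hw g hg.2)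
    · exact ⟨⟨p, Finset.mem_union_left _ hpT, hw⟩, hg⟩
  constructor
  · obtain ⟨⟨c, hcB⟩, hc⟩ := hB
    obtain ⟨σ, hσ⟩ := AlgEquiv.restrictNormalHom_surjective (AlgebraicClosure K) (K₁ := L) c
    obtain ⟨F₁, hF₁, hσ₁, hfdF₁, hM₁⟩ := hdeg σ
    have hle₁ : F.fixingSubgroup ≤ F₁.fixingSubgroup := by
      intro g hg
      obtain ⟨k, hk⟩ := hc ⟨_, (hmem g).1 hg⟩
      have hk' : ρ (σ ^ k) = ρ g := by
        have h1 : c ^ k = ρ g := congrArg Subtype.val hk
        rw [map_zpow, ← h1]
        congr 1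
      rw [IntermediateField.mem_fixingSubgroup_iff]
      intro x hx
      have h2 := (res_eq L _ _).1 hk' x (h4L (hF₁ hx))
      rw [← h2]
      have h4 : σ ∈ MulAction.stabilizer (Gal(AlgebraicClosure K/K)) x := hσ₁ x hx
      exact Subgroup.zpow_mem _ h4 k
    have hle₂ : F₁ ≤ F := by
      have h2 : IntermediateField.fixedField F₁.fixingSubgroup ≤
          IntermediateField.fixedField F.fixingSubgroup := by
        intro x hx
        rw [IntermediateField.mem_fixedField_iff] at hx ⊢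
        exact fun g hg => hx g (hle₁ hg)
      rwa [InfiniteGalois.fixedField_fixingSubgroup, InfiniteGalois.fixedField_fixingSubgroup] at h2
    have := lift_fd L (IntermediateField.fixedField B)
    exact hM₁.trans (IntermediateField.finrank_dvd_of_le_right hle₂)
  by_cases hA : ∃ c ∈ F.fixingSubgroup, ∃ w ∈ PL (T ∪ T₀), Dec w c ∧ ¬ ∀ x ∈ N, c x = x
  · left
    obtain ⟨c, hc, w₀, hw₀, hcw₀, hcN⟩ := hA
    have hconj : ∀ g ∈ F.fixingSubgroup, g * c * g⁻¹ ∈ F.fixingSubgroup := fun g hg =>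
      mul_mem (mul_mem hg hc) (inv_mem hg)
    constructor
    · by_contra hne
      rw [not_isEmpty_iff] at hne
      obtain ⟨t, ht, htF'⟩ := real_cc F hne
      have htF : t ∈ F.fixingSubgroup := (IntermediateField.mem_fixingSubgroup_iff _ _).2 htF'
      exact hcc c t w₀ hw₀ ht hcw₀ hcN (hcom L₂ h2L c hc _ (hconj t htF))
    · have key : ∀ (p : ℕ) (w : AlgebraicClosure K → ℝ), p.Prime → IsPl p w →
          (∃ g ∈ F.fixingSubgroup, Loc T p w g ∧ ¬ ∀ x ∈ N, g x = x) →
          ∀ y : 𝓞 N, (w₀ ((y : N) : AlgebraicClosure K) < 1 ↔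
            w ((y : N) : AlgebraicClosure K) < 1) := by
        rintro p w hp hw ⟨g, hgF, hgl, hgN⟩
        obtain ⟨hwP, hgw⟩ := hloc p w hp hw g hgl hgN
        exact hsep w₀ w hw₀ hwP (hlev c g w₀ w hw₀ hwP hcw₀ hgw hcN hgN
          (hcom L₁ h1L c hc _ (hconj g hgF)))
      intro p q hp hq w u hw hu hbw hbu y
      exact (key p w hp hw hbw y).symm.trans (key q u hq hu hbu y)
  · right
    push Not at hA
    constructor
    · intro p hp w hw g hgF hgl
      by_contra hgN
      obtain ⟨hwP, hgw⟩ := hloc p w hp hw g hgl hgN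
      exact hgN (hA g hgF w hwP hgw)
    · intro t ht htc g hg
      refine hbig t g htc fun x hx => ?_
      exact (res_eq L (g * t) (t * g)).1 (hcomm g hg t ht) x (h3L hx)

/-- **The rational relation.** -/
theorem rational_over {T : Finset ℕ} (hT : ∀ p ∈ T, p.Prime) {M : ℕ} (hM : 0 < M)
    (N : IntermediateField K (AlgebraicClosure K)) [FiniteDimensional K N] [Normal K N]
    {F₀ : IntermediateField K (AlgebraicClosure K)} (hF₀ : F₀ ≤ N) :
    ∃ (ι : Type) (_ : Fintype ι) (F : ι → IntermediateField K (AlgebraicClosure K)) (n : ι → ℤ)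
      (m : ℕ), 0 < m ∧
      (∀ j, FiniteDimensional K (F j) ∧ F₀ ≤ F j ∧ M ∣ Module.finrank K (F j) ∧
        (TypeI T N (F j) ∨ TypeS T N (F j))) ∧
      ∀ σ : GK K, ∑ j, n j * (fixn K (F j) σ : ℤ) = m * (fixn K F₀ σ : ℤ) := by
  obtain ⟨L, hfd, hn, hNL, hL⟩ := cyc_types hT hM N
  have hle : F₀ ≤ L := hF₀.trans hNL
  have : Fintype (Subgroup (L ≃ₐ[K] L)) := Fintype.ofFinite _
  obtain ⟨ι, hι, B, n, m, hm, hB, hrel⟩ :=
    artin_over (IntermediateField.restrict hle).fixingSubgroup
  refine ⟨ι, hι, fun j => IntermediateField.lift (IntermediateField.fixedField (B j)), n, m, hm,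
    fun j => ⟨lift_fd L _, lift_le L F₀ hle (hB j).1, (hL (B j) (hB j).2).1,
      (hL (B j) (hB j).2).2⟩, fun σ => ?_⟩
  have h1 : (fixn K F₀ σ : ℤ) = fq (IntermediateField.restrict hle).fixingSubgroup
      (AlgEquiv.restrictNormal σ L : L ≃ₐ[K] L) := by
    rw [← fixn_lift, lift_restrict L F₀ hle]
  rw [h1, ← hrel]
  exact Finset.sum_congr rfl fun j _ => by rw [fixn_lift]

end

end Pool.Agent.Q273.SQ
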