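import Pool.Agent.Q273.SQ.Pot
import Pool.Agent.Q273.SQ.Ex

/-! Elliptic curves over the fields with one bad place. -/

set_option autoImplicit false
set_option linter.unusedSectionVars false

namespace Pool.Agent.Q273.SQ

open NumberField Pool.Agent.Q246.BI Pool.Agent.Q246.RP Pool.Agent.Q273.SP
open Pool.Agent.Q5 Pool.Agent.W353.NF Pool.Agent.W401.Cheb
open scoped Classical

section
variable {K : Type} [Field K] [NumberField K]

/-- `F` is totally complex and all places at which `E` is not semistable over `F` lie above one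
prime of `N` -/
def OneE (E : WeierstrassCurve K) (N F : IntermediateField K (AlgebraicClosure K)) : Prop :=
  IsEmpty (F →+* ℝ) ∧ ∀ w u : AlgebraicClosure K → ℝ, (∃ p : ℕ, p.Prime ∧ IsPl p w) →
    (∃ p : ℕ, p.Prime ∧ IsPl p u) → ¬ SemiAt E F w → ¬ SemiAt E F u →
    ∀ y : 𝓞 N, (w ((y : N) : AlgebraicClosure K) < 1 ↔ u ((y : N) : AlgebraicClosure K) < 1)

/-- for a prime number `l`, `E` acquires semistable reduction at each place of `F` over an
extension of the completion of `l`-power degree -/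
def PowE (E : WeierstrassCurve K) (F : IntermediateField K (AlgebraicClosure K)) : Prop :=
  ∃ l : ℕ, l.Prime ∧ (l = 2 ∨ IsEmpty (F →+* ℝ)) ∧
    ∀ w : AlgebraicClosure K → ℝ, (∃ p : ℕ, p.Prime ∧ IsPl p w) →
      ∃ F' : IntermediateField K (AlgebraicClosure K), F ≤ F' ∧ FiniteDimensional K F' ∧
        (∀ g ∈ F.fixingSubgroup, ∀ x ∈ F', g x ∈ F') ∧ SemiAt E F' w ∧
        ∀ g ∈ F.fixingSubgroup, (∀ x, w (g x) = w x) → ∃ k : ℕ, ∀ x ∈ F', (g ^ l ^ k) x = x

/-- `E` is semistable over `F` at all places -/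
def SemiE (E : WeierstrassCurve K) (F : IntermediateField K (AlgebraicClosure K)) : Prop :=
  ∀ w : AlgebraicClosure K → ℝ, (∃ p : ℕ, p.Prime ∧ IsPl p w) → SemiAt E F w

/-- **The types of `E` over the fields.** -/
theorem ec_types {E : WeierstrassCurve K} (hE : E.IsElliptic)
    (N : IntermediateField K (AlgebraicClosure K)) [FiniteDimensional K N] :
    ∃ (T : Finset ℕ) (N' : IntermediateField K (AlgebraicClosure K)), (∀ p ∈ T, p.Prime) ∧
      FiniteDimensional K N' ∧ Normal K N' ∧ N ≤ N' ∧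
      ∀ F : IntermediateField K (AlgebraicClosure K), FiniteDimensional K F →
        (TypeI T N' F → OneE E N F) ∧ (TypeII T N' F → PowE E F) ∧
        (TypeS T N' F → SemiE E F) := by
  obtain ⟨T, hT, hgood⟩ := semi_almost hE
  obtain ⟨N₁, hN₁, hsemi⟩ := pot_semi hE
  have hfd : FiniteDimensional K (N ⊔ N₁ : IntermediateField K (AlgebraicClosure K)) :=
    IntermediateField.finiteDimensional_sup _ _
  let N' : IntermediateField K (AlgebraicClosure K) :=
    IntermediateField.normalClosure K (N ⊔ N₁ : IntermediateField K (AlgebraicClosure K))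
      (AlgebraicClosure K)
  have hle : N ⊔ N₁ ≤ N' := IntermediateField.le_normalClosure _
  have hNN' : N ≤ N' := le_sup_left.trans hle
  have hN1N' : N₁ ≤ N' := le_sup_right.trans hle
  have hfdN' : FiniteDimensional K N' := inferInstance
  have hnN' : Normal K N' := inferInstance
  have hsemi' : ∀ p : ℕ, p.Prime → ∀ w : AlgebraicClosure K → ℝ, IsPl p w → SemiAt E N' w :=
    fun p hp w hw => (hsemi p hp w hw).mono hN1N'
  refine ⟨T, N', hT, hfdN', hnN', hNN', fun F hF => ?_⟩
  have key : ∀ (p : ℕ) (w : AlgebraicClosure K → ℝ), p.Prime → IsPl p w →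
      (∀ g ∈ F.fixingSubgroup, Loc T p w g → ∀ x ∈ N', g x = x) → SemiAt E F w := by
    intro p w hp hw h
    by_cases hpT : p ∈ T
    · refine (hsemi' p hp w hw).descend hp hw fun x hx ε hε => ?_
      exact dense hp F hw x (fun g hg hgw => h g hg (Or.inr ⟨hpT, hgw⟩) x hx) hε
    · exact hgood p hp hpT w hw F
  have hN'g : ∀ (g : Gal(AlgebraicClosure K/K)), ∀ x ∈ N', g x ∈ N' := by
    intro g x hx
    have h2 := AlgEquiv.restrictNormal_commutes g N' ⟨x, hx⟩
    have h3 : g x = ((AlgEquiv.restrictNormal g N' ⟨x, hx⟩ : N') : AlgebraicClosure K) := h2.symm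
    rw [h3]
    exact Subtype.mem _
  refine ⟨?_, ?_, ?_⟩
  · rintro ⟨h1, h2⟩
    refine ⟨h1, fun w u hw hu hws hus y => ?_⟩
    obtain ⟨p, hp, hw⟩ := hw
    obtain ⟨q, hq, hu⟩ := hu
    have hbad : ∀ (p : ℕ) (w : AlgebraicClosure K → ℝ), p.Prime → IsPl p w → ¬ SemiAt E F w →
        ∃ g ∈ F.fixingSubgroup, Loc T p w g ∧ ¬ ∀ x ∈ N', g x = x := by
      intro p w hp hw hws
      by_contra hcon
      push Not at hcon
      exact hws (key p w hp hw hcon)
    have hint : IsIntegral ℤ (⟨(y : N), hNN' (y : N).2⟩ : N') := by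
      have h3 : IsIntegral ℤ (y : N) := y.isIntegral_coe
      exact h3.map ((IntermediateField.inclusion hNN').restrictScalars ℤ)
    exact h2 p q hp hq w u hw hu (hbad p w hp hw hws) (hbad q u hq hu hus)
      ⟨⟨(y : N), hNN' (y : N).2⟩, hint⟩
  · rintro ⟨l, hl, hreal, h2⟩
    refine ⟨l, hl, hreal, fun w hw => ?_⟩
    obtain ⟨p, hp, hw⟩ := hw
    by_cases hpT : p ∈ T
    · have hfd2 : FiniteDimensional K (F ⊔ N' : IntermediateField K (AlgebraicClosure K)) :=
        IntermediateField.finiteDimensional_sup _ _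
      refine ⟨F ⊔ N', le_sup_left, hfd2, ?_, (hsemi' p hp w hw).mono le_sup_right, ?_⟩
      · intro g hg x hx
        have h3 : (F ⊔ N').map (g : AlgebraicClosure K →ₐ[K] AlgebraicClosure K) ≤ F ⊔ N' := by
          rw [IntermediateField.map_sup]
          refine sup_le ?_ ?_
          · rintro _ ⟨z, hz, rfl⟩
            have h4 : g z = z := (IntermediateField.mem_fixingSubgroup_iff _ _).1 hg z hz
            change g z ∈ F ⊔ N'
            rw [h4]
            exact (le_sup_left : F ≤ F ⊔ N') hz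
          · rintro _ ⟨z, hz, rfl⟩
            exact (le_sup_right : N' ≤ F ⊔ N') (hN'g g z hz)
        exact h3 ⟨x, hx, rfl⟩
      · intro g hg hgw
        obtain ⟨k, hk⟩ := h2 p hp w hw g hg (Or.inr ⟨hpT, hgw⟩)
        refine ⟨k, fun x hx => ?_⟩
        have h3 : g ^ l ^ k ∈ (F ⊔ N').fixingSubgroup := by
          rw [IntermediateField.fixingSubgroup_sup]
          exact ⟨F.fixingSubgroup.pow_mem hg _,
            (IntermediateField.mem_fixingSubgroup_iff _ _).2 hk⟩
        exact (IntermediateField.mem_fixingSubgroup_iff _ _).1 h3 x hx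
    · refine ⟨F, le_rfl, hF, fun g hg x hx => ?_, hgood p hp hpT w hw F, fun g hg _ => ⟨0, ?_⟩⟩
      · rw [(IntermediateField.mem_fixingSubgroup_iff _ _).1 hg x hx]
        exact hx
      · intro x hx
        rw [pow_zero, pow_one]
        exact (IntermediateField.mem_fixingSubgroup_iff _ _).1 hg x hx
  · rintro ⟨h1, -⟩ w ⟨p, hp, hw⟩
    exact key p w hp hw fun g hg hgl => h1 p hp w hw g hg hgl

/-- **The exact relation for `E`.** -/
theorem ec_exact {E : WeierstrassCurve K} (hE : E.IsElliptic)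
    (N : IntermediateField K (AlgebraicClosure K)) [FiniteDimensional K N]
    (F₀ : IntermediateField K (AlgebraicClosure K)) [FiniteDimensional K F₀] :
    ∃ (ι : Type) (_ : Fintype ι) (F : ι → IntermediateField K (AlgebraicClosure K)) (n : ι → ℤ),
      (∀ j, FiniteDimensional K (F j) ∧ F₀ ≤ F j ∧ (OneE E N (F j) ∨ PowE E (F j))) ∧
      ∀ σ : GK K, ∑ j, n j * (fixn K (F j) σ : ℤ) = (fixn K F₀ σ : ℤ) := by
  have hfd : FiniteDimensional K (N ⊔ F₀ : IntermediateField K (AlgebraicClosure K)) :=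
    IntermediateField.finiteDimensional_sup _ _
  obtain ⟨T, N', hT, hfdN', hnN', hNN', hty⟩ := ec_types hE (N ⊔ F₀)
  obtain ⟨ι, hι, F, n, hF, hrel⟩ := exact_over hT N' (F₀ := F₀) (le_sup_right.trans hNN')
  refine ⟨ι, hι, F, n, fun j => ⟨(hF j).1, (hF j).2.1, ?_⟩, hrel⟩
  obtain ⟨h1, h2, h3⟩ := hty (F j) (hF j).1
  rcases (hF j).2.2 with h | h
  · left
    obtain ⟨h4, h5⟩ := h1 h
    refine ⟨h4, fun w u hw hu hws hus y => ?_⟩
    have hint : IsIntegral ℤ (⟨(y : N), (le_sup_left : N ≤ N ⊔ F₀) (y : N).2⟩ :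
        (N ⊔ F₀ : IntermediateField K (AlgebraicClosure K))) := by
      have h6 : IsIntegral ℤ (y : N) := y.isIntegral_coe
      exact h6.map ((IntermediateField.inclusion (le_sup_left : N ≤ N ⊔ F₀)).restrictScalars ℤ)
    exact h5 w u hw hu hws hus ⟨⟨(y : N), (le_sup_left : N ≤ N ⊔ F₀) (y : N).2⟩, hint⟩
  · exact Or.inr (h2 h)

/-- **The rational relation for `E`.** -/
theorem ec_rational {E : WeierstrassCurve K} (hE : E.IsElliptic) {M : ℕ} (hM : 0 < M)
    (N : IntermediateField K (AlgebraicClosure K)) [FiniteDimensional K N]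
    (F₀ : IntermediateField K (AlgebraicClosure K)) [FiniteDimensional K F₀] :
    ∃ (ι : Type) (_ : Fintype ι) (F : ι → IntermediateField K (AlgebraicClosure K)) (n : ι → ℤ)
      (m : ℕ), 0 < m ∧
      (∀ j, FiniteDimensional K (F j) ∧ F₀ ≤ F j ∧ M ∣ Module.finrank K (F j) ∧
        (OneE E N (F j) ∨ SemiE E (F j))) ∧
      ∀ σ : GK K, ∑ j, n j * (fixn K (F j) σ : ℤ) = m * (fixn K F₀ σ : ℤ) := by
  have hfd : FiniteDimensional K (N ⊔ F₀ : IntermediateField K (AlgebraicClosure K)) :=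
    IntermediateField.finiteDimensional_sup _ _
  obtain ⟨T, N', hT, hfdN', hnN', hNN', hty⟩ := ec_types hE (N ⊔ F₀)
  obtain ⟨ι, hι, F, n, m, hm, hF, hrel⟩ :=
    rational_over hT hM N' (F₀ := F₀) (le_sup_right.trans hNN')
  refine ⟨ι, hι, F, n, m, hm, fun j => ⟨(hF j).1, (hF j).2.1, (hF j).2.2.1, ?_⟩, hrel⟩
  obtain ⟨h1, h2, h3⟩ := hty (F j) (hF j).1
  rcases (hF j).2.2.2 with h | h
  · left
    obtain ⟨h4, h5⟩ := h1 h
    refine ⟨h4, fun w u hw hu hws hus y => ?_⟩
    have hint : IsIntegral ℤ (⟨(y : N), (le_sup_left : N ≤ N ⊔ F₀) (y : N).2⟩ :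
        (N ⊔ F₀ : IntermediateField K (AlgebraicClosure K))) := by
      have h6 : IsIntegral ℤ (y : N) := y.isIntegral_coe
      exact h6.map ((IntermediateField.inclusion (le_sup_left : N ≤ N ⊔ F₀)).restrictScalars ℤ)
    exact h5 w u hw hu hws hus ⟨⟨(y : N), (le_sup_left : N ≤ N ⊔ F₀) (y : N).2⟩, hint⟩
  · exact Or.inr (h3 h)

end

end Pool.Agent.Q273.SQ
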