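import Pool.Agent.Q273.SQ.ECF
import Pool.Agent.Q5.BR.Bsd

/-! The L-functions of an elliptic curve in a relation. -/

set_option autoImplicit false
set_option linter.unusedSectionVars false

namespace Pool.Agent.Q273.SQ

open NumberField IsDedekindDomain Pool.Agent.Q5.BR Pool.Agent.W353.NF Pool.Agent.W401.Cheb
open Pool.Agent.TH322.BC.Edge (MinimalModels)
open Pool.Agent.TH322.BC.Edge renaming LSeries → LS
open scoped Classical

section
variable {K : Type} [Field K] [NumberField K]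

/-- the Euler product without the factors at the places above `S` -/
noncomputable def Lout (S : Finset (HeightOneSpectrum (𝓞 K))) {F : Type} [Field F]
    [NumberField F] [Algebra K F] (V : HeightOneSpectrum (𝓞 F) → WeierstrassCurve (𝓞 F))
    (s : ℂ) : ℂ :=
  LS V s * ∏ v ∈ S, ∏ w ∈ above F v, (1 - zz V w s)

theorem fac_ne {F : Type} [Field F] [NumberField F] [Algebra K F]
    (V : HeightOneSpectrum (𝓞 F) → WeierstrassCurve (𝓞 F)) (v : HeightOneSpectrum (𝓞 K))
    {s : ℂ} (hs : 3 / 2 < s.re) : ∏ w ∈ above F v, (1 - zz V w s) ≠ 0 :=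
  Finset.prod_ne_zero_iff.2 fun w _ => one_sub_zz_ne V w hs

/-- **The formula.** -/
theorem lout_rel {ι : Type} [Fintype ι] {X : ι → Ext K} {n : ι → ℤ} {m : ℤ} (X₀ : Ext K)
    (h : ∀ σ : GK K, ∑ j, n j * (fixn K (X j).F σ : ℤ) = m * (fixn K X₀.F σ : ℤ))
    {E : WeierstrassCurve K} (hE : E.IsElliptic)
    {V₀ : HeightOneSpectrum (𝓞 X₀.F) → WeierstrassCurve (𝓞 X₀.F)}
    (hV₀ : MinimalModels (E.map (algebraMap K X₀.F)) V₀)
    {V : ∀ j, HeightOneSpectrum (𝓞 (X j).F) → WeierstrassCurve (𝓞 (X j).F)}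
    (hV : ∀ j, MinimalModels (E.map (algebraMap K (X j).F)) (V j)) :
    ∃ S : Finset (HeightOneSpectrum (𝓞 K)), ∀ s : ℂ, 3 / 2 < s.re →
      (Lout S V₀ s) ^ m = ∏ j, (Lout S (V j) s) ^ (n j) := by
  classical
  let X' : Option ι → Ext K := fun o => o.elim X₀ X
  let n' : Option ι → ℤ := fun o => o.elim (-m) n
  let V' : ∀ j : Option ι, HeightOneSpectrum (𝓞 (X' j).F) → WeierstrassCurve (𝓞 (X' j).F) :=
    fun o => match o with
      | none => V₀
      | some j => V j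
  have hrel : Rel X' n' := by
    intro σ
    rw [Fintype.sum_option]
    change (-m) * (fixn K X₀.F σ : ℤ) + ∑ j, n j * (fixn K (X j).F σ : ℤ) = 0
    rw [h σ]
    ring
  have hV' : ∀ j, MinimalModels (E.map (algebraMap K (X' j).F)) (V' j) := by
    rintro (_ | j)
    · exact hV₀
    · exact hV j
  obtain ⟨S, hS⟩ := LS_rel hrel hE hV'
  refine ⟨S, fun s hs => ?_⟩
  have h1 := hS s hs
  have hE₀ : (E.map (algebraMap K X₀.F)).IsElliptic := inferInstance
  have h2 : ∏ j : Option ι, (Lout S (V' j) s) ^ (n' j) = 1 := by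
    unfold Lout
    have h3 : ∀ j : Option ι, (LS (V' j) s * ∏ v ∈ S, ∏ w ∈ above (X' j).F v,
        (1 - zz (V' j) w s)) ^ (n' j) =
        (LS (V' j) s) ^ (n' j) * (∏ v ∈ S, (∏ w ∈ above (X' j).F v,
          (1 - zz (V' j) w s)⁻¹) ^ (n' j))⁻¹ := by
      intro j
      rw [mul_zpow, ← Finset.prod_inv_distrib, ← Finset.prod_zpow]
      congr 1
      refine Finset.prod_congr rfl fun v _ => ?_
      rw [Finset.prod_inv_distrib, inv_zpow, inv_inv]
    rw [Finset.prod_congr rfl fun j _ => h3 j, Finset.prod_mul_distrib, h1,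
      Finset.prod_comm, Finset.prod_inv_distrib]
    refine mul_inv_cancel₀ ?_
    refine Finset.prod_ne_zero_iff.2 fun j _ => Finset.prod_ne_zero_iff.2 fun v _ => ?_
    refine zpow_ne_zero _ ?_
    rw [Finset.prod_inv_distrib]
    exact inv_ne_zero (fac_ne (V' j) v hs)
  rw [Fintype.prod_option] at h2
  change (Lout S V₀ s) ^ (-m) * ∏ j, (Lout S (V j) s) ^ (n j) = 1 at h2
  have h0 : (Lout S V₀ s) ^ m ≠ 0 := by
    refine zpow_ne_zero _ ?_
    exact mul_ne_zero (LSeries_ne_zero hE₀ hV₀ hs)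
      (Finset.prod_ne_zero_iff.2 fun v _ => fac_ne V₀ v hs)
  rw [zpow_neg, inv_mul_eq_iff_eq_mul₀ h0, mul_one] at h2
  exact h2.symm

theorem out_meromorphic (S : Finset (HeightOneSpectrum (𝓞 K))) {F : Type} [Field F]
    [NumberField F] [Algebra K F] (V : HeightOneSpectrum (𝓞 F) → WeierstrassCurve (𝓞 F))
    (s : ℂ) : MeromorphicAt (fun s => ∏ v ∈ S, ∏ w ∈ above F v, (1 - zz V w s)) s := by
  refine MeromorphicAt.fun_prod fun v _ => MeromorphicAt.fun_prod fun w _ => ?_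
  exact (((differentiable_const 1).sub (differentiable_zz V w)).analyticAt s).meromorphicAt

/-- **The continuation in a relation.** -/
theorem cont_rel {ι : Type} [Fintype ι] {X : ι → Ext K} {n : ι → ℤ} {m : ℤ} (X₀ : Ext K)
    (h : ∀ σ : GK K, ∑ j, n j * (fixn K (X j).F σ : ℤ) = m * (fixn K X₀.F σ : ℤ))
    {E : WeierstrassCurve K} (hE : E.IsElliptic)
    (hc : ∀ j, PowAll (E.map (algebraMap K (X j).F)) 1) :
    PowAll (E.map (algebraMap K X₀.F)) m := by
  classical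
  intro V₀ hV₀
  have hEj : ∀ j, (E.map (algebraMap K (X j).F)).IsElliptic := fun j => inferInstance
  choose V hV using fun j => exists_minimalModels (E.map (algebraMap K (X j).F)) (hEj j)
  obtain ⟨S, hS⟩ := lout_rel X₀ h hE hV₀ hV
  choose f hf hf' using fun j => hc j (V j) (hV j)
  refine ⟨fun s => ((∏ v ∈ S, ∏ w ∈ above X₀.F v, (1 - zz V₀ w s)) ^ m)⁻¹ *
    ∏ j, (f j s * ∏ v ∈ S, ∏ w ∈ above (X j).F v, (1 - zz (V j) w s)) ^ (n j),
    fun s hs => ?_, fun s hs => ?_⟩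
  · refine MeromorphicAt.fun_mul ?_ (MeromorphicAt.fun_prod fun j _ => ?_)
    · exact ((out_meromorphic S V₀ s).fun_zpow m).fun_inv
    · exact ((hf j s hs).fun_mul (out_meromorphic S (V j) s)).fun_zpow (n j)
  · have h1 := hS s hs
    have h2 : ∀ j, f j s * ∏ v ∈ S, ∏ w ∈ above (X j).F v, (1 - zz (V j) w s) =
        Lout S (V j) s := by
      intro j
      rw [hf' j s hs, zpow_one]
      rfl
    change ((∏ v ∈ S, ∏ w ∈ above X₀.F v, (1 - zz V₀ w s)) ^ m)⁻¹ *
      ∏ j, (f j s * ∏ v ∈ S, ∏ w ∈ above (X j).F v, (1 - zz (V j) w s)) ^ (n j) = _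
    have h3 : ∏ j, (f j s * ∏ v ∈ S, ∏ w ∈ above (X j).F v, (1 - zz (V j) w s)) ^ (n j) =
        (Lout S V₀ s) ^ m := by
      rw [h1]
      exact Finset.prod_congr rfl fun j _ => by rw [h2 j]
    rw [h3]
    unfold Lout
    rw [mul_zpow, mul_comm, mul_assoc, mul_inv_cancel₀, mul_one]
    exact zpow_ne_zero _ (Finset.prod_ne_zero_iff.2 fun v _ => fac_ne V₀ v hs)

end

end Pool.Agent.Q273.SQ
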