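import Pool.Agent.Q273.SQ.Arch

/-! Finite levels for hyperelementary subgroups. -/

set_option autoImplicit false
set_option linter.unusedSectionVars false

namespace Pool.Agent.Q273.SQ

open NumberField Pool.Agent.Q246.BI Pool.Agent.Q246.RP Pool.Agent.Q273.SP
open scoped Classical

section
variable {K : Type} [Field K] [NumberField K]

/-- **Compactness.** A continuous family of nontrivial automorphisms is nontrivial at a finite
level. -/
theorem exists_level {W : Type} [TopologicalSpace W] {C : Set W} (hC : IsCompact C)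
    {φ : W → Gal(AlgebraicClosure K/K)} (hφ : Continuous φ) (h : ∀ z ∈ C, φ z ≠ 1)
    (L : IntermediateField K (AlgebraicClosure K)) [FiniteDimensional K L] :
    ∃ L' : IntermediateField K (AlgebraicClosure K), FiniteDimensional K L' ∧ Normal K L' ∧
      L ≤ L' ∧ ∀ z ∈ C, ¬ ∀ x ∈ L', φ z x = x := by
  have h1 : IsClosed (φ '' C) := (hC.image hφ).isClosed
  have h2 : (φ '' C)ᶜ ∈ nhds (1 : Gal(AlgebraicClosure K/K)) := by
    refine h1.isOpen_compl.mem_nhds ?_
    rintro ⟨z, hz, hz'⟩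
    exact h z hz hz'
  obtain ⟨E, hE, hE'⟩ := (krullTopology_mem_nhds_one_iff K (AlgebraicClosure K) _).1 h2
  have hfd : FiniteDimensional K (L ⊔ E : IntermediateField K (AlgebraicClosure K)) :=
    IntermediateField.finiteDimensional_sup _ _
  have hle : L ⊔ E ≤ IntermediateField.normalClosure K (L ⊔ E : IntermediateField K
      (AlgebraicClosure K)) (AlgebraicClosure K) :=
    IntermediateField.le_normalClosure _
  refine ⟨IntermediateField.normalClosure K (L ⊔ E : IntermediateField K (AlgebraicClosure K))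
    (AlgebraicClosure K), inferInstance, inferInstance, le_sup_left.trans hle, fun z hz hx => ?_⟩
  refine hE' (a := φ z) ?_ ⟨z, hz, rfl⟩
  refine (IntermediateField.mem_fixingSubgroup_iff _ _).2 fun x hxE => ?_
  exact hx x ((le_sup_right.trans hle) hxE)

/-- evaluation of a moving place at a moving point -/
theorem closed_dec {W : Type} [TopologicalSpace W] {f : W → Gal(AlgebraicClosure K/K)}
    {v : W → (AlgebraicClosure K → ℝ)} (hf : Continuous f) (hv : Continuous v) :
    IsClosed {z : W | ∀ x, v z (f z x) = v z x} := by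
  have h0 : {z : W | ∀ x, v z (f z x) = v z x} = ⋂ x, {z : W | v z (f z x) = v z x} := by
    ext z
    simp
  rw [h0]
  refine isClosed_iInter fun x => ?_
  have hc : Continuous fun z : W => v z (f z x) := by
    rw [continuous_iff_continuousAt]
    intro z
    have h1 : {z' : W | f z' x = f z x} ∈ nhds z :=
      ((isClopen_eval x fun y => y = f z x).2.preimage hf).mem_nhds rfl
    have h2 : (fun z' : W => v z' (f z' x)) =ᶠ[nhds z] fun z' : W => v z' (f z x) := by
      filter_upwards [h1] with z' hz'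
      have h3 : f z' x = f z x := hz'
      rw [h3]
    exact ContinuousAt.congr (((continuous_apply (f z x)).comp hv).continuousAt) h2.symm
  exact isClosed_eq hc ((continuous_apply x).comp hv)

theorem closed_nt (L : IntermediateField K (AlgebraicClosure K)) [FiniteDimensional K L]
    {W : Type} [TopologicalSpace W] {f : W → Gal(AlgebraicClosure K/K)} (hf : Continuous f) :
    IsClosed {z : W | ¬ ∀ x ∈ L, f z x = x} := by
  refine ⟨?_⟩
  have h2 : {z : W | ¬ ∀ x ∈ L, f z x = x}ᶜ = f ⁻¹'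
      (L.fixingSubgroup : Set (Gal(AlgebraicClosure K/K))) := by
    ext t
    simp only [Set.mem_compl_iff, Set.mem_ofPred_eq, not_not]
    exact (IntermediateField.mem_fixingSubgroup_iff _ _).symm
  rw [h2]
  exact (IntermediateField.fixingSubgroup_isOpen L).preimage hf

/-- an element whose conjugate by `g` commutes with it has its place fixed by `g` -/
theorem fixes_place {T : Finset ℕ} (hT : ∀ p ∈ T, p.Prime) {w : AlgebraicClosure K → ℝ}
    (hw : w ∈ PL T) {c g : Gal(AlgebraicClosure K/K)}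
    (hcg : (c * (g * c * g⁻¹))⁻¹ * ((g * c * g⁻¹) * c) = 1) (hcw : ∀ x, w (c x) = w x)
    (hc : c ≠ 1) : ∀ x, w (g x) = w x := by
  obtain ⟨p, hp, hwp⟩ := id hw
  have hw' : (fun x => w (g⁻¹ x)) ∈ PL T := ⟨p, hp, hwp.comp g⁻¹⟩
  have hcomm : c * (g * c * g⁻¹) = (g * c * g⁻¹) * c := by
    have h1 := inv_mul_eq_one.1 hcg
    exact h1
  have hne : g * c * g⁻¹ ≠ 1 := by
    intro h
    apply hc
    have h1 : c = g⁻¹ * (g * c * g⁻¹) * g := by group
    rw [h1, h]
    group
  have h1 : w = fun x => w (g⁻¹ x) := by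
    refine same_place hT hw hw' (g := c) (h := g * c * g⁻¹) (k := c) rfl hcomm.symm hcw
      (fun x => ?_) hc hne hc
    change w (g⁻¹ (g (c (g⁻¹ x)))) = w (g⁻¹ x)
    have h2 : g⁻¹ (g (c (g⁻¹ x))) = c (g⁻¹ x) := g.symm_apply_apply _
    rw [h2, hcw]
  intro x
  have h2 := congrFun h1 (g x)
  have h3 : g⁻¹ (g x) = x := g.symm_apply_apply _
  rw [h2]
  change w (g⁻¹ (g x)) = w x
  rw [h3]

/-- **The level for hyperelementary subgroups.** -/
theorem level_hyp (L : IntermediateField K (AlgebraicClosure K)) [FiniteDimensional K L]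
    {T : Finset ℕ} (hT : ∀ p ∈ T, p.Prime) (Y : Finset (AlgebraicClosure K))
    (hY : ∀ y ∈ Y, IsIntegral ℤ y) :
    ∃ L' : IntermediateField K (AlgebraicClosure K), FiniteDimensional K L' ∧ Normal K L' ∧
      L ≤ L' ∧ ∀ (c g : Gal(AlgebraicClosure K/K)) (w u : AlgebraicClosure K → ℝ),
        w ∈ PL T → u ∈ PL T → (∀ x, w (c x) = w x) → (∀ x, u (g x) = u x) →
        (¬ ∀ x ∈ L, c x = x) → (¬ ∀ x ∈ L, g x = x) →
        (∀ x ∈ L', ((c * (g * c * g⁻¹))⁻¹ * ((g * c * g⁻¹) * c)) x = x) →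
        ∀ y ∈ Y, (w y < 1 ↔ u y < 1) := by
  choose! n hn using fun (y : AlgebraicClosure K) (hy : y ∈ Y) => gap_closed (K := K) hT (hY y hy)
  let W : Type := Gal(AlgebraicClosure K/K) × Gal(AlgebraicClosure K/K) ×
    (AlgebraicClosure K → ℝ) × (AlgebraicClosure K → ℝ)
  have c1 : Continuous fun z : W => z.1 := continuous_fst
  have c2 : Continuous fun z : W => z.2.1 := continuous_fst.comp continuous_snd
  have c3 : Continuous fun z : W => z.2.2.1 :=
    continuous_fst.comp (continuous_snd.comp continuous_snd)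
  have c4 : Continuous fun z : W => z.2.2.2 :=
    continuous_snd.comp (continuous_snd.comp continuous_snd)
  let A : Set W := {z : W | ∀ x, z.2.2.1 (z.1 x) = z.2.2.1 x} ∩
    {z : W | ∀ x, z.2.2.2 (z.2.1 x) = z.2.2.2 x} ∩ {z : W | ¬ ∀ x ∈ L, z.1 x = x} ∩
    {z : W | ¬ ∀ x ∈ L, z.2.1 x = x} ∩
    ⋃ y ∈ Y, ({z : W | z.2.2.1 y ^ n y ≤ 2⁻¹} ∩ {z : W | 1 ≤ z.2.2.2 y}) ∪
      ({z : W | 1 ≤ z.2.2.1 y} ∩ {z : W | z.2.2.2 y ^ n y ≤ 2⁻¹})
  have hA : IsClosed A := by
    refine ((((closed_dec c1 c3).inter (closed_dec c2 c4)).inter (closed_nt L c1)).inter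
      (closed_nt L c2)).inter ?_
    refine Set.Finite.isClosed_biUnion Y.finite_toSet fun y _ => ?_
    refine IsClosed.union (IsClosed.inter ?_ ?_) (IsClosed.inter ?_ ?_)
    · exact isClosed_le (((continuous_apply y).comp c3).pow _) continuous_const
    · exact isClosed_le continuous_const ((continuous_apply y).comp c4)
    · exact isClosed_le continuous_const ((continuous_apply y).comp c3)
    · exact isClosed_le (((continuous_apply y).comp c4).pow _) continuous_const
  let C : Set W := Set.univ ×ˢ Set.univ ×ˢ PL T ×ˢ PL T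
  have hC : IsCompact C := isCompact_univ.prod (isCompact_univ.prod
    ((isCompact_pl hT).prod (isCompact_pl hT)))
  have hCA : IsCompact (C ∩ A) := hC.inter_right hA
  obtain ⟨L', h1, h2, h3, h4⟩ := exists_level hCA
    (φ := fun z : W => (z.1 * (z.2.1 * z.1 * z.2.1⁻¹))⁻¹ * ((z.2.1 * z.1 * z.2.1⁻¹) * z.1))
    (by fun_prop) (by
      rintro ⟨c, g, w, u⟩ ⟨⟨-, -, hw, hu⟩, ⟨⟨⟨⟨a1, a2⟩, a3⟩, a4⟩, a5⟩⟩ heq
      have hc : c ≠ 1 := by
        rintro rfl
        exact a3 fun x _ => rfl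
      have hg : g ≠ 1 := by
        rintro rfl
        exact a4 fun x _ => rfl
      have h5 := fixes_place hT hw heq a1 hc
      obtain ⟨p, hp, hwp⟩ := id hw
      obtain ⟨q, hq, huq⟩ := id hu
      have hwu : w = u := by
        by_contra hne
        exact hg (malnormal (hT p hp) (hT q hq) hwp huq hne g h5 a2)
      obtain ⟨y, hy, h6⟩ := Set.mem_iUnion₂.1 a5
      have key : ∀ v : AlgebraicClosure K → ℝ, v ∈ PL T → v y ^ n y ≤ 2⁻¹ → 1 ≤ v y → False := by
        intro v hv h7 h8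
        exact absurd ((hn y hy v hv).2 h7) (not_lt.2 h8)
      rcases h6 with ⟨h7, h8⟩ | ⟨h7, h8⟩
      · change w y ^ n y ≤ 2⁻¹ at h7
        change 1 ≤ u y at h8
        rw [← hwu] at h8
        exact key w hw h7 h8
      · change 1 ≤ w y at h7
        change u y ^ n y ≤ 2⁻¹ at h8
        rw [← hwu] at h8
        exact key w hw h8 h7) L
  refine ⟨L', h1, h2, h3, fun c g w u hw hu hcw hgu hc hg hcomm y hy => ?_⟩
  by_contra hcon
  refine h4 (c, g, w, u) ⟨⟨trivial, trivial, hw, hu⟩, ⟨⟨⟨⟨hcw, hgu⟩, hc⟩, hg⟩, ?_⟩⟩ hcomm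
  refine Set.mem_biUnion hy ?_
  have h1w := hn y hy w hw
  have h1u := hn y hy u hu
  by_cases hwy : w y < 1
  · have huy : ¬ u y < 1 := fun h => hcon ⟨fun _ => h, fun _ => hwy⟩
    exact Or.inl ⟨h1w.1 hwy, not_lt.1 huy⟩
  · have huy : u y < 1 := by
      by_contra h
      exact hcon ⟨fun h' => absurd h' hwy, fun h' => absurd h' h⟩
    exact Or.inr ⟨not_lt.1 hwy, h1u.1 huy⟩

/-- no complex conjugation normalizes a cyclic group meeting a decomposition group -/
theorem level_hyp_cc (L : IntermediateField K (AlgebraicClosure K)) [FiniteDimensional K L]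
    {T : Finset ℕ} (hT : ∀ p ∈ T, p.Prime) :
    ∃ L' : IntermediateField K (AlgebraicClosure K), FiniteDimensional K L' ∧ Normal K L' ∧
      L ≤ L' ∧ ∀ (c t : Gal(AlgebraicClosure K/K)) (w : AlgebraicClosure K → ℝ),
        w ∈ PL T → IsCC t → (∀ x, w (c x) = w x) → (¬ ∀ x ∈ L, c x = x) →
        ¬ ∀ x ∈ L', ((c * (t * c * t⁻¹))⁻¹ * ((t * c * t⁻¹) * c)) x = x := by
  let W : Type := Gal(AlgebraicClosure K/K) × Gal(AlgebraicClosure K/K) ×
    (AlgebraicClosure K → ℝ)
  have c1 : Continuous fun z : W => z.1 := continuous_fst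
  have c2 : Continuous fun z : W => z.2.1 := continuous_fst.comp continuous_snd
  have c3 : Continuous fun z : W => z.2.2 := continuous_snd.comp continuous_snd
  let A : Set W := {z : W | ∀ x, z.2.2 (z.1 x) = z.2.2 x} ∩ {z : W | IsCC z.2.1} ∩
    {z : W | ¬ ∀ x ∈ L, z.1 x = x}
  have hA : IsClosed A :=
    ((closed_dec c1 c3).inter (isClosed_cc.preimage c2)).inter (closed_nt L c1)
  let C : Set W := Set.univ ×ˢ Set.univ ×ˢ PL T
  have hC : IsCompact C := isCompact_univ.prod (isCompact_univ.prod (isCompact_pl hT))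
  have hCA : IsCompact (C ∩ A) := hC.inter_right hA
  obtain ⟨L', h1, h2, h3, h4⟩ := exists_level hCA
    (φ := fun z : W => (z.1 * (z.2.1 * z.1 * z.2.1⁻¹))⁻¹ * ((z.2.1 * z.1 * z.2.1⁻¹) * z.1))
    (by fun_prop) (by
      rintro ⟨c, t, w⟩ ⟨⟨-, -, hw⟩, ⟨⟨a1, a2⟩, a3⟩⟩ heq
      have hc : c ≠ 1 := by
        rintro rfl
        exact a3 fun x _ => rfl
      obtain ⟨p, hp, hwp⟩ := id hw
      exact cc_not_dec (hT p hp) hwp a2 (fixes_place hT hw heq a1 hc)) L
  refine ⟨L', h1, h2, h3, fun c t w hw ht hcw hc hcomm => ?_⟩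
  exact h4 (c, t, w) ⟨⟨trivial, trivial, hw⟩, ⟨⟨hcw, ht⟩, hc⟩⟩ hcomm

end

end Pool.Agent.Q273.SQ
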