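import Pool.Agent.Q273.SQ.Semi

/-! Potential semistability of elliptic curves (Legendre and Deuring forms). -/

set_option autoImplicit false
set_option linter.unusedSectionVars false

namespace Pool.Agent.Q273.SQ

open NumberField Pool.Agent.Q246.BI Pool.Agent.Q246.RP Pool.Agent.Q273.SP WeierstrassCurve
open scoped Classical

section
variable {Ω : Type} [Field Ω]

/-- the Legendre curve `y² = x (x - 1) (x - a)` -/
def legendre (a : Ω) : WeierstrassCurve Ω := ⟨0, -(1 + a), 0, a, 0⟩

theorem legendre_Δ (a : Ω) : (legendre a).Δ = 16 * a ^ 2 * (a - 1) ^ 2 := by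
  simp only [legendre, WeierstrassCurve.Δ, b₂, b₄, b₆, b₈]
  ring

theorem legendre_c₄ (a : Ω) : (legendre a).c₄ = 16 * (a ^ 2 - a + 1) := by
  simp only [legendre, c₄, b₂, b₄]
  ring

/-- the Deuring curve `y² + a x y + b y = x³` -/
def deuring (a b : Ω) : WeierstrassCurve Ω := ⟨a, 0, b, 0, 0⟩

theorem deuring_Δ (a b : Ω) : (deuring a b).Δ = b ^ 3 * (a ^ 3 - 27 * b) := by
  simp only [deuring, WeierstrassCurve.Δ, b₂, b₄, b₆, b₈]
  ring

theorem deuring_c₄ (a b : Ω) : (deuring a b).c₄ = a * (a ^ 3 - 24 * b) := by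
  simp only [deuring, c₄, b₂, b₄]
  ring

theorem legendre_semi {p : ℕ} (hp : p.Prime) (hp2 : p ≠ 2) {w : Ω → ℝ} (hw : IsPl p w) {a : Ω}
    (ha : w a ≤ 1) : SemiModel w (legendre a) := by
  have h2 : w (2 : Ω) = 1 := by
    have h1 := hw.int_coprime hp (n := 2) (fun h => by
      have h6 : p ∣ 2 := by exact_mod_cast h
      exact hp2 ((Nat.prime_dvd_prime_iff_eq hp Nat.prime_two).1 h6))
    exact_mod_cast h1
  have h16 : w (16 : Ω) = 1 := by
    have : (16 : Ω) = 2 ^ 4 := by norm_num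
    rw [this, hw.pow hp, h2, one_pow]
  refine ⟨⟨?_, ?_, ?_, ha, ?_⟩, ?_⟩
  · change w 0 ≤ 1
    rw [hw.zero]
    exact zero_le_one
  · change w (-(1 + a)) ≤ 1
    rw [hw.neg hp]
    exact (hw.add _ _).trans (max_le (hw.one hp).le ha)
  · change w 0 ≤ 1
    rw [hw.zero]
    exact zero_le_one
  · change w 0 ≤ 1
    rw [hw.zero]
    exact zero_le_one
  · have ha1 : w (a - 1) ≤ 1 := (hw.sub hp _ _).trans (max_le ha (hw.one hp).le)
    by_cases hΔ : w (legendre a).Δ = 1
    · exact Or.inl hΔ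
    right
    rw [legendre_c₄, hw.mul, h16, one_mul]
    rw [legendre_Δ, hw.mul, hw.mul, hw.pow hp, hw.pow hp, h16, one_mul] at hΔ
    have hlt : w (a * (a - 1)) < 1 := by
      rw [hw.mul]
      rcases lt_or_eq_of_le ha with h | h
      · exact lt_of_le_of_lt (mul_le_of_le_one_right (hw.nonneg _) ha1) h
      · rw [h, one_pow, one_mul] at hΔ
        rcases lt_or_eq_of_le ha1 with h' | h'
        · rw [h, one_mul]
          exact h'
        · rw [h', one_pow] at hΔ
          exact absurd rfl hΔ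
    have h3 : a ^ 2 - a + 1 = a * (a - 1) + 1 := by ring
    rw [h3]
    have h4 : w (a * (a - 1)) < w 1 := by rwa [hw.one hp]
    rw [hw.add_eq hp h4, hw.one hp]

theorem deuring_semi {p : ℕ} (hp : p.Prime) (hp3 : p ≠ 3) {w : Ω → ℝ} (hw : IsPl p w) {a b : Ω}
    (ha : w a ≤ 1) (hb : w b ≤ 1) (hab : w a = 1 ∨ b = 1) : SemiModel w (deuring a b) := by
  have h3 : w (3 : Ω) = 1 := by
    have h1 := hw.int_coprime hp (n := 3) (fun h => by
      have h6 : p ∣ 3 := by exact_mod_cast h
      exact hp3 ((Nat.prime_dvd_prime_iff_eq hp Nat.prime_three).1 h6))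
    exact_mod_cast h1
  have h27 : w (27 : Ω) = 1 := by
    have : (27 : Ω) = 3 ^ 3 := by norm_num
    rw [this, hw.pow hp, h3, one_pow]
  have h0 : w (0 : Ω) ≤ 1 := by
    rw [hw.zero]
    exact zero_le_one
  refine ⟨⟨ha, h0, hb, h0, h0⟩, ?_⟩
  by_cases hΔ : w (deuring a b).Δ = 1
  · exact Or.inl hΔ
  right
  rw [deuring_c₄, hw.mul]
  rw [deuring_Δ, hw.mul, hw.pow hp] at hΔ
  have h24 : w (24 * b) ≤ 1 := by
    rw [hw.mul]
    exact mul_le_one₀ (by exact_mod_cast hw.nat_le hp 24) (hw.nonneg _) hb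
  have h27b : w (27 * b) = w b := by rw [hw.mul, h27, one_mul]
  have h3b : w (3 * b) = w b := by rw [hw.mul, h3, one_mul]
  have hsub : w (a ^ 3 - 27 * b) ≤ 1 := by
    refine (hw.sub hp _ _).trans (max_le ?_ (h27b.le.trans hb))
    rw [hw.pow hp]
    exact pow_le_one₀ (hw.nonneg _) ha
  rcases lt_or_eq_of_le hb with hb1 | hb1
  · -- `b` is not a unit, so `a` is one
    have ha1 : w a = 1 := by
      rcases hab with h | h
      · exact h
      · rw [h, hw.one hp] at hb1
        exact absurd hb1 (lt_irrefl _)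
    rw [ha1, one_mul]
    have h5 : w (-(24 * b)) < w (a ^ 3) := by
      rw [hw.neg hp, hw.pow hp, ha1, one_pow, hw.mul]
      exact lt_of_le_of_lt (mul_le_of_le_one_left (hw.nonneg _) (by exact_mod_cast hw.nat_le hp 24))
        hb1
    have h6 : a ^ 3 - 24 * b = -(24 * b) + a ^ 3 := by ring
    rw [h6, hw.add_eq hp h5, hw.pow hp, ha1, one_pow]
  · rw [hb1, one_pow, one_mul] at hΔ
    have hlt : w (a ^ 3 - 27 * b) < 1 := lt_of_le_of_ne hsub hΔ
    have h5 : w (a ^ 3 - 24 * b) = 1 := by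
      have h6 : a ^ 3 - 24 * b = (a ^ 3 - 27 * b) + 3 * b := by ring
      have h7 : w (a ^ 3 - 27 * b) < w (3 * b) := by rwa [h3b, hb1]
      rw [h6, hw.add_eq hp h7, h3b, hb1]
    have h8 : w a = 1 := by
      have h9 : a ^ 3 = (a ^ 3 - 27 * b) + 27 * b := by ring
      have h10 : w (a ^ 3 - 27 * b) < w (27 * b) := by rwa [h27b, hb1]
      have h11 : w (a ^ 3) = 1 := by rw [h9, hw.add_eq hp h10, h27b, hb1]
      rw [hw.pow hp] at h11
      exact (pow_eq_one_iff_of_nonneg (hw.nonneg _) (by norm_num)).1 h11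
    rw [h8, h5, one_mul]

end

section
variable {Ω : Type} [Field Ω] [IsAlgClosed Ω] [CharZero Ω]

/-- the Legendre form -/
theorem exists_legendre (E : WeierstrassCurve Ω) (hE : E.IsElliptic) :
    ∃ (C : VariableChange Ω) (a : Ω), a ≠ 0 ∧ C • E = legendre a := by
  obtain ⟨a, ha⟩ : ∃ a : Ω, 256 * (a ^ 2 - a + 1) ^ 3 - E.j * (a ^ 2 * (a - 1) ^ 2) = 0 := by
    let P : Polynomial Ω := 256 * (Polynomial.X ^ 2 - Polynomial.X + 1) ^ 3 -
      Polynomial.C E.j * (Polynomial.X ^ 2 * (Polynomial.X - 1) ^ 2)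
    have hdeg : P.degree ≠ 0 := by
      have h1 : P.eval 0 = 256 := by simp [P]
      intro h
      have h2 := Polynomial.eq_C_of_degree_eq_zero h
      have h3 : P.eval 2 = P.eval 0 := by rw [h2, Polynomial.eval_C, Polynomial.eval_C]
      have h4 : P.eval (-1) = P.eval 0 := by rw [h2, Polynomial.eval_C, Polynomial.eval_C]
      have h5 : P.eval 3 = P.eval 0 := by rw [h2, Polynomial.eval_C, Polynomial.eval_C]
      have e2 : P.eval 2 = 256 * 27 - E.j * 4 := by simp [P]; norm_num
      have e5 : P.eval 3 = 256 * 343 - E.j * 36 := by simp [P]; norm_num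
      rw [e2, h1] at h3
      rw [e5, h1] at h5
      have h6 : (256 * 343 - 256 : Ω) = 9 * (256 * 27 - 256) := by
        linear_combination h5 - 9 * h3
      norm_num at h6
    obtain ⟨a, ha⟩ := IsAlgClosed.exists_root P hdeg
    refine ⟨a, ?_⟩
    have h1 : P.eval a = 0 := ha
    simpa [P] using h1
  have ha0 : a ≠ 0 := by
    rintro rfl
    norm_num at ha
  have ha1 : a - 1 ≠ 0 := by
    intro h
    have h1 : a = 1 := sub_eq_zero.1 h
    rw [h1] at ha
    norm_num at ha
  have hΔ : (legendre a).Δ ≠ 0 := by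
    rw [legendre_Δ]
    exact mul_ne_zero (mul_ne_zero (by norm_num) (pow_ne_zero _ ha0)) (pow_ne_zero _ ha1)
  have hell : (legendre a).IsElliptic := ⟨isUnit_iff_ne_zero.2 hΔ⟩
  have hj : E.j = (legendre a).j := by
    have h1 : (legendre a).j = ((legendre a).Δ)⁻¹ * (legendre a).c₄ ^ 3 := by
      rw [WeierstrassCurve.j, Units.val_inv_eq_inv_val, coe_Δ']
    rw [h1, legendre_Δ, legendre_c₄, eq_inv_mul_iff_mul_eq₀ (mul_ne_zero (mul_ne_zero
      (by norm_num) (pow_ne_zero _ ha0)) (pow_ne_zero _ ha1))]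
    linear_combination -16 * ha
  obtain ⟨C, hC⟩ := exists_variableChange_of_j_eq E (legendre a) hj
  exact ⟨C, a, ha0, hC⟩

/-- the Deuring form -/
theorem exists_deuring (E : WeierstrassCurve Ω) (hE : E.IsElliptic) :
    ∃ (C : VariableChange Ω) (a : Ω), C • E = deuring a 1 := by
  obtain ⟨a, ha⟩ : ∃ a : Ω, (a * (a ^ 3 - 24)) ^ 3 - E.j * (a ^ 3 - 27) = 0 := by
    let P : Polynomial Ω := (Polynomial.X * (Polynomial.X ^ 3 - 24)) ^ 3 -
      Polynomial.C E.j * (Polynomial.X ^ 3 - 27)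
    have hdeg : P.degree ≠ 0 := by
      intro h
      have h2 := Polynomial.eq_C_of_degree_eq_zero h
      have h0 : P.eval 0 = E.j * 27 := by simp [P]
      have e1 : P.eval 1 = -12167 + E.j * 26 := by simp [P]; norm_num
      have e2 : P.eval (-1) = 15625 + E.j * 28 := by simp [P]; norm_num
      have h3 : P.eval 1 = P.eval 0 := by rw [h2, Polynomial.eval_C, Polynomial.eval_C]
      have h4 : P.eval (-1) = P.eval 0 := by rw [h2, Polynomial.eval_C, Polynomial.eval_C]
      rw [e1, h0] at h3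
      rw [e2, h0] at h4
      have h6 : (15625 - 12167 : Ω) = 0 := by
        linear_combination h3 + h4
      norm_num at h6
    obtain ⟨a, ha⟩ := IsAlgClosed.exists_root P hdeg
    refine ⟨a, ?_⟩
    have h1 : P.eval a = 0 := ha
    simpa [P] using h1
  have ha1 : a ^ 3 - 27 ≠ 0 := by
    intro h
    rw [h, mul_zero, sub_zero, mul_pow] at ha
    have h1 : a ^ 3 = 27 := sub_eq_zero.1 h
    rw [h1] at ha
    norm_num at ha
  have hΔ : (deuring a 1).Δ ≠ 0 := by
    rw [deuring_Δ, one_pow, one_mul, mul_one]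
    exact ha1
  have hell : (deuring a 1).IsElliptic := ⟨isUnit_iff_ne_zero.2 hΔ⟩
  have hj : E.j = (deuring a 1).j := by
    have h1 : (deuring a 1).j = ((deuring a 1).Δ)⁻¹ * (deuring a 1).c₄ ^ 3 := by
      rw [WeierstrassCurve.j, Units.val_inv_eq_inv_val, coe_Δ']
    rw [h1, deuring_Δ, deuring_c₄, one_pow, one_mul, mul_one, mul_one,
      eq_inv_mul_iff_mul_eq₀ ha1]
    linear_combination -ha
  obtain ⟨C, hC⟩ := exists_variableChange_of_j_eq E (deuring a 1) hj
  exact ⟨C, a, hC⟩

end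

section
variable {K : Type} [Field K] [NumberField K]

/-- **Potential semistability.** -/
theorem pot_semi {E : WeierstrassCurve K} (hE : E.IsElliptic) :
    ∃ N : IntermediateField K (AlgebraicClosure K), FiniteDimensional K N ∧
      ∀ p : ℕ, p.Prime → ∀ w : AlgebraicClosure K → ℝ, IsPl p w → SemiAt E N w := by
  have hEΩ : (E.map (algebraMap K (AlgebraicClosure K))).IsElliptic := inferInstance
  obtain ⟨C, a, ha0, hC⟩ := exists_legendre _ hEΩ
  obtain ⟨D, b, hD⟩ := exists_deuring _ hEΩ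
  obtain ⟨v, hv⟩ := IsAlgClosed.exists_pow_nat_eq a (n := 2) (by norm_num)
  have hv0 : v ≠ 0 := by
    rintro rfl
    apply ha0
    rw [← hv]
    norm_num
  let S : Finset (AlgebraicClosure K) :=
    {(C.u : AlgebraicClosure K), C.r, C.s, C.t, v, (D.u : AlgebraicClosure K), D.r, D.s, D.t, b}
  let N : IntermediateField K (AlgebraicClosure K) := IntermediateField.adjoin K (S : Set _)
  have hN : FiniteDimensional K N :=
    IntermediateField.finiteDimensional_adjoin fun y _ => Algebra.IsIntegral.isIntegral y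
  have hS : ∀ x ∈ S, x ∈ N := fun x hx => IntermediateField.subset_adjoin K _ hx
  have mCu : (C.u : AlgebraicClosure K) ∈ N := hS _ (by simp [S])
  have mCr : C.r ∈ N := hS _ (by simp [S])
  have mCs : C.s ∈ N := hS _ (by simp [S])
  have mCt : C.t ∈ N := hS _ (by simp [S])
  have mv : v ∈ N := hS _ (by simp [S])
  have mDu : (D.u : AlgebraicClosure K) ∈ N := hS _ (by simp [S])
  have mDr : D.r ∈ N := hS _ (by simp [S])
  have mDs : D.s ∈ N := hS _ (by simp [S])
  have mDt : D.t ∈ N := hS _ (by simp [S])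
  have mb : b ∈ N := hS _ (by simp [S])
  refine ⟨N, hN, fun p hp w hw => ?_⟩
  rw [semiAt_iff]
  by_cases hp2 : p = 2
  · have hp3 : p ≠ 3 := by omega
    by_cases hb : w b ≤ 1
    · refine ⟨D, mDu, mDr, mDs, mDt, ?_⟩
      rw [hD]
      exact deuring_semi hp hp3 hw hb (hw.one hp).le (Or.inr rfl)
    · push Not at hb
      have hb0 : b ≠ 0 := by
        rintro rfl
        rw [hw.zero] at hb
        exact absurd hb (by norm_num)
      let U : VariableChange (AlgebraicClosure K) := ⟨Units.mk0 b hb0, 0, 0, 0⟩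
      refine ⟨U * D, ?_, ?_, ?_, ?_, ?_⟩
      · exact N.mul_mem mb mDu
      · change 0 * (D.u : AlgebraicClosure K) ^ 2 + D.r ∈ N
        rw [zero_mul, zero_add]
        exact mDr
      · change (D.u : AlgebraicClosure K) * 0 + D.s ∈ N
        rw [mul_zero, zero_add]
        exact mDs
      · change 0 * (D.u : AlgebraicClosure K) ^ 3 + 0 * D.s * (D.u : AlgebraicClosure K) ^ 2 +
          D.t ∈ N
        rw [zero_mul, zero_mul, zero_mul, zero_add, zero_add]
        exact mDt
      · rw [mul_smul, hD]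
        have h1 : U • deuring b 1 = deuring 1 (b⁻¹ ^ 3) := by
          have hU : ((U.u⁻¹ : (AlgebraicClosure K)ˣ) : AlgebraicClosure K) = b⁻¹ :=
            Units.val_inv_eq_inv_val _
          ext
          · rw [variableChange_a₁, hU]
            change b⁻¹ * (b + 2 * 0) = 1
            rw [mul_zero, add_zero, inv_mul_cancel₀ hb0]
          · rw [variableChange_a₂, hU]
            change b⁻¹ ^ 2 * (0 - 0 * b + 3 * 0 - 0 ^ 2) = 0
            ring
          · rw [variableChange_a₃, hU]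
            change b⁻¹ ^ 3 * (1 + 0 * b + 2 * 0) = b⁻¹ ^ 3
            ring
          · rw [variableChange_a₄, hU]
            change b⁻¹ ^ 4 * (0 - 0 * 1 + 2 * 0 * 0 - (0 + 0 * 0) * b + 3 * 0 ^ 2 - 2 * 0 * 0) = 0
            ring
          · rw [variableChange_a₆, hU]
            change b⁻¹ ^ 6 * (0 + 0 * 0 + 0 ^ 2 * 0 + 0 ^ 3 - 0 * 1 - 0 ^ 2 - 0 * 0 * b) = 0
            ring
        rw [h1]
        have h2 : w (b⁻¹ ^ 3) ≤ 1 := by
          rw [hw.pow hp, hw.inv hp]
          exact pow_le_one₀ (inv_nonneg.2 (hw.nonneg _)) (inv_le_one_of_one_le₀ hb.le)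
        exact deuring_semi hp hp3 hw (hw.one hp).le h2 (Or.inl (hw.one hp))
  · by_cases ha : w a ≤ 1
    · refine ⟨C, mCu, mCr, mCs, mCt, ?_⟩
      rw [hC]
      exact legendre_semi hp hp2 hw ha
    · push Not at ha
      let U : VariableChange (AlgebraicClosure K) := ⟨Units.mk0 v hv0, 0, 0, 0⟩
      refine ⟨U * C, ?_, ?_, ?_, ?_, ?_⟩
      · exact N.mul_mem mv mCu
      · change 0 * (C.u : AlgebraicClosure K) ^ 2 + C.r ∈ N
        rw [zero_mul, zero_add]
        exact mCr
      · change (C.u : AlgebraicClosure K) * 0 + C.s ∈ N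
        rw [mul_zero, zero_add]
        exact mCs
      · change 0 * (C.u : AlgebraicClosure K) ^ 3 + 0 * C.s * (C.u : AlgebraicClosure K) ^ 2 +
          C.t ∈ N
        rw [zero_mul, zero_mul, zero_mul, zero_add, zero_add]
        exact mCt
      · rw [mul_smul, hC]
        have h1 : U • legendre a = legendre a⁻¹ := by
          have hU : ((U.u⁻¹ : (AlgebraicClosure K)ˣ) : AlgebraicClosure K) = v⁻¹ :=
            Units.val_inv_eq_inv_val _
          have hva : v⁻¹ ^ 2 = a⁻¹ := by rw [inv_pow, hv]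
          have hva4 : v⁻¹ ^ 4 = a⁻¹ * a⁻¹ := by
            rw [show (4 : ℕ) = 2 * 2 from rfl, pow_mul, hva, sq]
          ext
          · rw [variableChange_a₁, hU]
            change v⁻¹ * (0 + 2 * 0) = 0
            ring
          · rw [variableChange_a₂, hU, hva]
            change a⁻¹ * (-(1 + a) - 0 * 0 + 3 * 0 - 0 ^ 2) = -(1 + a⁻¹)
            field_simp
            ring
          · rw [variableChange_a₃, hU]
            change v⁻¹ ^ 3 * (0 + 0 * 0 + 2 * 0) = 0
            ring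
          · rw [variableChange_a₄, hU, hva4]
            change a⁻¹ * a⁻¹ * (a - 0 * 0 + 2 * 0 * (-(1 + a)) - (0 + 0 * 0) * 0 + 3 * 0 ^ 2 -
              2 * 0 * 0) = a⁻¹
            field_simp
            ring
          · rw [variableChange_a₆, hU]
            change v⁻¹ ^ 6 * (0 + 0 * a + 0 ^ 2 * (-(1 + a)) + 0 ^ 3 - 0 * 0 - 0 ^ 2 -
              0 * 0 * 0) = 0
            ring
        rw [h1]
        refine legendre_semi hp hp2 hw ?_
        rw [hw.inv hp]
        exact inv_le_one_of_one_le₀ ha.le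

end

end Pool.Agent.Q273.SQ
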