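import Pool.Agent.Q5.SO.Hyp

/-! Relations between permutation characters induced from a subgroup. -/

set_option autoImplicit false
set_option linter.unusedSectionVars false

namespace Pool.Agent.Q273.SQ

open MulAction Pool.Agent.Q5.SO
open scoped Classical Pointwise

section
variable {G : Type} [Group G] [Finite G]

/-- conjugate subgroups have the same permutation character -/
theorem fq_map (B : Subgroup G) (a g : G) :
    fq (B.map (MulAut.conj a).toMonoidHom) g = fq B g := by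
  have h1 := card_fq (B.map (MulAut.conj a).toMonoidHom) g
  have h2 := card_fq B g
  have hc : Nat.card (B.map (MulAut.conj a).toMonoidHom) = Nat.card B :=
    (Nat.card_congr (B.equivMapOfInjective _ (MulAut.conj a).injective).toEquiv).symm
  have h3 : Nat.card {x : G // x⁻¹ * g * x ∈ B.map (MulAut.conj a).toMonoidHom} =
      Nat.card {x : G // x⁻¹ * g * x ∈ B} := by
    refine Nat.card_congr (Equiv.subtypeEquiv (Equiv.mulRight a) fun x => ?_)
    change _ ↔ (x * a)⁻¹ * g * (x * a) ∈ B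
    constructor
    · rintro ⟨b, hb, hb'⟩
      have h4 : a * b * a⁻¹ = x⁻¹ * g * x := hb'
      have h5 : (x * a)⁻¹ * g * (x * a) = b := by
        have h6 : (x * a)⁻¹ * g * (x * a) = a⁻¹ * (x⁻¹ * g * x) * a := by group
        rw [h6, ← h4]
        group
      rwa [h5]
    · intro h
      refine ⟨_, h, ?_⟩
      change a * ((x * a)⁻¹ * g * (x * a)) * a⁻¹ = _
      group
  rw [hc, h3] at h1
  have h4 : (Nat.card B : ℤ) ≠ 0 := by
    have : 0 < Nat.card B := Nat.card_pos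
    exact_mod_cast this.ne'
  exact mul_left_cancel₀ h4 (h1.trans h2.symm)

variable [Fintype (Subgroup G)] {𝓗 : Subgroup G → Prop}

/-- the rational form of Banaschewski's lemma -/
theorem rational (hconj : ∀ B a, 𝓗 B → 𝓗 (B.map (MulAut.conj a).toMonoidHom))
    (hinf : ∀ B C, 𝓗 B → 𝓗 C → 𝓗 (B ⊓ C)) (h : ∀ g : G, ∃ B, 𝓗 B ∧ fq B g ≠ 0) :
    ∃ m : ℕ, 0 < m ∧ Cmb 𝓗 (fun _ : G => (m : ℤ)) := by
  choose B hB hBg using h
  have : Fintype G := Fintype.ofFinite G
  have h4 : ∀ s : Finset G, ∃ (ψ : G → ℤ) (m : ℤ), m ≠ 0 ∧ Cmb 𝓗 ψ ∧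
      ∀ x, ∏ g ∈ s, (fq (B g) g - fq (B g) x) = m - ψ x := by
    intro s
    induction s using Finset.induction_on with
    | empty => exact ⟨_, 1, one_ne_zero, Cmb.zero, fun x => by simp⟩
    | insert a s ha ih =>
      obtain ⟨ψ, m, hm, h1, h2⟩ := ih
      refine ⟨fun x => m * fq (B a) x + (fq (B a) a * ψ x + (-1) * (fq (B a) x * ψ x)),
        fq (B a) a * m, mul_ne_zero (hBg a) hm, ((Cmb.of (hB a)).smul m).add ((h1.smul _).add
        (((Cmb.of (hB a)).mul hconj hinf h1).smul (-1))), fun x => ?_⟩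
      rw [Finset.prod_insert ha, h2]
      ring
  obtain ⟨ψ, m, hm, h5, h6⟩ := h4 Finset.univ
  have h7 : ψ = fun _ => m := by
    funext x
    have h8 := h6 x
    rw [Finset.prod_eq_zero (Finset.mem_univ x) (by rw [sub_self])] at h8
    linarith
  rw [h7] at h5
  refine ⟨m.natAbs, Int.natAbs_pos.2 hm, ?_⟩
  rcases Int.natAbs_eq m with h9 | h9
  · rw [← h9]
    exact h5
  · have h10 := h5.smul (-1)
    have h11 : (fun _ : G => ((m.natAbs : ℕ) : ℤ)) = fun _ => -1 * m := by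
      funext _
      omega
    rw [h11]
    exact h10

/-- **Induction from a subgroup.** -/
theorem induce (hconj : ∀ B a, 𝓗 B → 𝓗 (B.map (MulAut.conj a).toMonoidHom))
    (hle : ∀ B C, 𝓗 B → C ≤ B → 𝓗 C) {m : ℤ} (h : Cmb 𝓗 (fun _ : G => m)) (H : Subgroup G) :
    ∃ (ι : Type) (_ : Fintype ι) (B : ι → Subgroup G) (n : ι → ℤ),
      (∀ j, B j ≤ H ∧ 𝓗 (B j)) ∧ ∀ g, ∑ j, n j * fq (B j) g = m * fq H g := by
  let 𝓗' : Subgroup G → Prop := fun B =>
    𝓗 B ∧ ∃ a : G, B.map (MulAut.conj a).toMonoidHom ≤ H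
  have h1 : Cmb 𝓗' (fun g => m * fq H g) := by
    obtain ⟨n, hn, hn'⟩ := h
    have h2 : (fun g => m * fq H g) = fun g => ∑ B : Subgroup G, n B * (fq H g * fq B g) := by
      funext g
      have h3 : m = ∑ B, n B * fq B g := hn' g
      conv_lhs => rw [h3]
      rw [Finset.sum_mul]
      exact Finset.sum_congr rfl fun B _ => by ring
    rw [h2]
    refine Cmb.sum _ fun B _ => ?_
    by_cases hB : n B = 0
    · simpa [hB] using Cmb.zero
    refine Cmb.smul ?_ _
    have : Fintype (Quotient (orbitRel G ((G ⧸ H) × (G ⧸ B)))) := Fintype.ofFinite _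
    have h4 : (fun g => fq H g * fq B g) = fun g =>
        ∑ ω : Quotient (orbitRel G ((G ⧸ H) × (G ⧸ B))), fq (stabilizer G ω.out) g := by
      funext g
      rw [fq_mul, fp_orbits]
    rw [h4]
    refine Cmb.sum _ fun ω _ => Cmb.of ?_
    have h5 : stabilizer G ω.out = stabilizer G ω.out.1 ⊓ stabilizer G ω.out.2 := by
      ext g
      rw [Subgroup.mem_inf, mem_stabilizer_iff, mem_stabilizer_iff, mem_stabilizer_iff]
      exact Prod.ext_iff
    refine ⟨?_, ?_⟩
    · rw [h5]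
      exact hle _ _ (stab_mem hconj (hn B hB) _) inf_le_right
    · obtain ⟨a, ha⟩ := QuotientGroup.mk_surjective ω.out.1
      refine ⟨a⁻¹, ?_⟩
      rintro _ ⟨b, hb, rfl⟩
      have hb1 : b • ω.out.1 = ω.out.1 := by
        have h6 : b ∈ stabilizer G ω.out.1 := by
          have h7 : b ∈ stabilizer G ω.out := hb
          rw [h5] at h7
          exact h7.1
        exact h6
      rw [← ha] at hb1
      have h8 : ((b * a : G) : G ⧸ H) = (a : G ⧸ H) := hb1
      have h9 := QuotientGroup.eq.1 h8.symm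
      change a⁻¹ * b * a⁻¹⁻¹ ∈ H
      rw [inv_inv, mul_assoc]
      exact h9
  obtain ⟨n, hn, hn'⟩ := h1
  choose a ha using fun B : {B : Subgroup G // n B ≠ 0} => (hn B.1 B.2).2
  refine ⟨{B : Subgroup G // n B ≠ 0}, inferInstance,
    fun B => B.1.map (MulAut.conj (a B)).toMonoidHom, fun B => n B.1,
    fun B => ⟨ha B, hconj _ _ (hn B.1 B.2).1⟩, fun g => ?_⟩
  have h0 : m * fq H g = ∑ B, n B * fq B g := hn' g
  rw [h0]
  rw [Finset.sum_congr rfl fun (B : {B : Subgroup G // n B ≠ 0}) _ =>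
    congrArg (fun t => n B.1 * t) (fq_map B.1 (a B) g)]
  have h2 : ∀ B : Subgroup G, B ∈ Finset.univ.filter (fun B => n B ≠ 0) ↔ n B ≠ 0 := by
    intro B
    simp
  rw [← Finset.sum_subtype (Finset.univ.filter (fun B => n B ≠ 0)) h2
    (fun B => n B * fq B g)]
  rw [Finset.sum_filter_of_ne]
  intro B _ hB h3
  apply hB
  rw [h3, zero_mul]

/-- Solomon's theorem for a subgroup -/
theorem solomon_over (H : Subgroup G) :
    ∃ (ι : Type) (_ : Fintype ι) (B : ι → Subgroup G) (n : ι → ℤ),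
      (∀ j, B j ≤ H ∧ Hyper (B j)) ∧ ∀ g, ∑ j, n j * fq (B j) g = fq H g := by
  obtain ⟨n, hn, hn'⟩ := solomon (G := G)
  have h0 := banaschewski (𝓗 := fun B : Subgroup G => ∃ p : ℕ, p.Prime ∧ HypAt p B)
    (fun B a => fun ⟨p, hp, h⟩ => ⟨p, hp, h.map (MulAut.conj a)⟩)
    (fun B C => fun ⟨p, hp, h⟩ _ => ⟨p, hp, h.le inf_le_left⟩)
    (fun g p hp => by
      obtain ⟨H, h1, h2⟩ := exists_hyp g p hp
      exact ⟨H, ⟨p, hp, h1⟩, h2⟩)
  obtain ⟨ι, hι, B, n, hB, hr⟩ := induce (fun B a => fun ⟨p, hp, h⟩ => ⟨p, hp, h.map (MulAut.conj a)⟩)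
    (fun B C => fun ⟨p, hp, h⟩ hle => ⟨p, hp, h.le hle⟩) h0 H
  refine ⟨ι, hι, B, n, fun j => ⟨(hB j).1, ?_⟩, fun g => ?_⟩
  · obtain ⟨p, hp, h⟩ := (hB j).2
    exact h.hyper hp
  · rw [hr g, one_mul]

/-- Artin's theorem for a subgroup -/
theorem artin_over (H : Subgroup G) :
    ∃ (ι : Type) (_ : Fintype ι) (B : ι → Subgroup G) (n : ι → ℤ) (m : ℕ), 0 < m ∧
      (∀ j, B j ≤ H ∧ IsCyclic (B j)) ∧ ∀ g, ∑ j, n j * fq (B j) g = m * fq H g := by
  have hle : ∀ B C : Subgroup G, IsCyclic B → C ≤ B → IsCyclic C := fun B C hB hCB =>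
    isCyclic_of_injective (Subgroup.inclusion hCB) (Subgroup.inclusion_injective hCB)
  have hconj : ∀ (B : Subgroup G) (a : G), IsCyclic B →
      IsCyclic (B.map (MulAut.conj a).toMonoidHom) := fun B a hB =>
    (B.equivMapOfInjective _ (MulAut.conj a).injective).isCyclic.1 hB
  obtain ⟨m, hm, h0⟩ := rational (𝓗 := fun B : Subgroup G => IsCyclic B) hconj
    (fun B C hB _ => hle _ _ hB inf_le_left)
    (fun g => by
      refine ⟨Subgroup.zpowers g, inferInstance, ?_⟩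
      unfold fq
      have h1 : (Nat.card {x : G ⧸ Subgroup.zpowers g // g • x = x}) ≠ 0 := by
        rw [Nat.card_ne_zero]
        refine ⟨⟨⟨((1 : G) : G ⧸ Subgroup.zpowers g), ?_⟩⟩, inferInstance⟩
        change ((g * 1 : G) : G ⧸ Subgroup.zpowers g) = _
        rw [QuotientGroup.eq, mul_one, mul_one]
        exact inv_mem (Subgroup.mem_zpowers g)
      exact_mod_cast h1)
  obtain ⟨ι, hι, B, n, hB, hr⟩ := induce hconj hle h0 H
  exact ⟨ι, hι, B, n, m, hm, hB, hr⟩

end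

end Pool.Agent.Q273.SQ
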