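import Pool.Agent.Q273.SQ.Dens

/-! Semistable reduction at a place of the algebraic closure. -/

set_option autoImplicit false
set_option linter.unusedSectionVars false

namespace Pool.Agent.Q273.SQ

open NumberField Pool.Agent.Q246.BI Pool.Agent.Q246.RP Pool.Agent.Q273.SP WeierstrassCurve
open scoped Classical

section
variable {Ω : Type} [Field Ω]

/-- an integral model with unit discriminant or unit `c₄` -/
def SemiModel (w : Ω → ℝ) (W : WeierstrassCurve Ω) : Prop :=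
  (w W.a₁ ≤ 1 ∧ w W.a₂ ≤ 1 ∧ w W.a₃ ≤ 1 ∧ w W.a₄ ≤ 1 ∧ w W.a₆ ≤ 1) ∧
    (w W.Δ = 1 ∨ w W.c₄ = 1)

/-- the ring of the place -/
def ringOf {p : ℕ} (hp : p.Prime) {w : Ω → ℝ} (hw : IsPl p w) : Subring Ω where
  carrier := {x | w x ≤ 1}
  mul_mem' := by
    intro a b ha hb
    change w (a * b) ≤ 1
    rw [hw.mul]
    exact mul_le_one₀ ha (hw.nonneg _) hb
  one_mem' := (hw.one hp).le
  add_mem' := fun {a b} ha hb => (hw.add a b).trans (max_le ha hb)
  zero_mem' := by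
    change w 0 ≤ 1
    rw [hw.zero]
    exact zero_le_one
  neg_mem' := by
    intro a ha
    change w (-a) ≤ 1
    rw [hw.neg hp]
    exact ha

theorem mem_ringOf {p : ℕ} (hp : p.Prime) {w : Ω → ℝ} (hw : IsPl p w) {x : Ω} :
    x ∈ ringOf hp hw ↔ w x ≤ 1 := Iff.rfl

/-- integral changes of variables preserve semistable models -/
theorem semi_change {p : ℕ} (hp : p.Prime) {w : Ω → ℝ} (hw : IsPl p w) {W : WeierstrassCurve Ω}
    (h : SemiModel w W) {D : VariableChange Ω} (hu : w (D.u : Ω) = 1) (hr : w D.r ≤ 1)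
    (hs : w D.s ≤ 1) (ht : w D.t ≤ 1) : SemiModel w (D • W) := by
  obtain ⟨⟨h1, h2, h3, h4, h6⟩, hss⟩ := h
  set O := ringOf hp hw with hO
  have hui : w ((D.u⁻¹ : Ωˣ) : Ω) = 1 := by
    rw [Units.val_inv_eq_inv_val, hw.inv hp, hu, inv_one]
  have mu : ((D.u⁻¹ : Ωˣ) : Ω) ∈ O := hui.le
  have mr : D.r ∈ O := hr
  have ms : D.s ∈ O := hs
  have mt : D.t ∈ O := ht
  have m1 : W.a₁ ∈ O := h1
  have m2 : W.a₂ ∈ O := h2
  have m3 : W.a₃ ∈ O := h3
  have m4 : W.a₄ ∈ O := h4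
  have m6 : W.a₆ ∈ O := h6
  have c2 : (2 : Ω) ∈ O := by exact_mod_cast natCast_mem O 2
  have c3 : (3 : Ω) ∈ O := by exact_mod_cast natCast_mem O 3
  refine ⟨⟨?_, ?_, ?_, ?_, ?_⟩, ?_⟩
  · change (D • W).a₁ ∈ O
    rw [variableChange_a₁]
    exact O.mul_mem mu (O.add_mem m1 (O.mul_mem c2 ms))
  · change (D • W).a₂ ∈ O
    rw [variableChange_a₂]
    exact O.mul_mem (O.pow_mem mu _) (O.sub_mem (O.add_mem (O.sub_mem m2 (O.mul_mem ms m1))
      (O.mul_mem c3 mr)) (O.pow_mem ms _))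
  · change (D • W).a₃ ∈ O
    rw [variableChange_a₃]
    exact O.mul_mem (O.pow_mem mu _) (O.add_mem (O.add_mem m3 (O.mul_mem mr m1)) (O.mul_mem c2 mt))
  · change (D • W).a₄ ∈ O
    rw [variableChange_a₄]
    exact O.mul_mem (O.pow_mem mu _) (O.sub_mem (O.add_mem (O.sub_mem (O.add_mem (O.sub_mem m4
      (O.mul_mem ms m3)) (O.mul_mem (O.mul_mem c2 mr) m2)) (O.mul_mem (O.add_mem mt
      (O.mul_mem mr ms)) m1)) (O.mul_mem c3 (O.pow_mem mr _))) (O.mul_mem (O.mul_mem c2 ms) mt))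
  · change (D • W).a₆ ∈ O
    rw [variableChange_a₆]
    exact O.mul_mem (O.pow_mem mu _) (O.sub_mem (O.sub_mem (O.sub_mem (O.add_mem (O.add_mem
      (O.add_mem m6 (O.mul_mem mr m4)) (O.mul_mem (O.pow_mem mr _) m2)) (O.pow_mem mr _))
      (O.mul_mem mt m3)) (O.pow_mem mt _)) (O.mul_mem (O.mul_mem mr mt) m1))
  · rw [variableChange_Δ, variableChange_c₄, hw.mul, hw.mul, hw.pow hp, hw.pow hp, hui, one_pow,
      one_pow, one_mul, one_mul]
    exact hss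

end

section
variable {K : Type} [Field K] [NumberField K]

/-- `E` is semistable at the place `w` over `F` -/
def SemiAt (E : WeierstrassCurve K) (F : IntermediateField K (AlgebraicClosure K))
    (w : AlgebraicClosure K → ℝ) : Prop :=
  ∃ C : VariableChange F,
    SemiModel w ((C • E.map (algebraMap K F)).map (algebraMap F (AlgebraicClosure K)))

theorem semiAt_iff (E : WeierstrassCurve K) (F : IntermediateField K (AlgebraicClosure K))
    (w : AlgebraicClosure K → ℝ) : SemiAt E F w ↔ ∃ C : VariableChange (AlgebraicClosure K),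
      (C.u : AlgebraicClosure K) ∈ F ∧ C.r ∈ F ∧ C.s ∈ F ∧ C.t ∈ F ∧
        SemiModel w (C • E.map (algebraMap K (AlgebraicClosure K))) := by
  have hmap : ∀ C : VariableChange F,
      (C • E.map (algebraMap K F)).map (algebraMap F (AlgebraicClosure K)) =
        C.map (algebraMap F (AlgebraicClosure K)) • E.map (algebraMap K (AlgebraicClosure K)) := by
    intro C
    rw [← map_variableChange, WeierstrassCurve.map_map]
    rfl
  constructor
  · rintro ⟨C, hC⟩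
    rw [hmap] at hC
    exact ⟨_, (C.u : F).2, C.r.2, C.s.2, C.t.2, hC⟩
  · rintro ⟨C, hu, hr, hs, ht, hC⟩
    have hu0 : (⟨(C.u : AlgebraicClosure K), hu⟩ : F) ≠ 0 := by
      intro h
      exact C.u.ne_zero (congrArg Subtype.val h)
    let C₀ : VariableChange F :=
      ⟨Units.mk0 ⟨(C.u : AlgebraicClosure K), hu⟩ hu0, ⟨C.r, hr⟩, ⟨C.s, hs⟩, ⟨C.t, ht⟩⟩
    refine ⟨C₀, ?_⟩
    rw [hmap]
    have h1 : C₀.map (algebraMap F (AlgebraicClosure K)) = C := by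
      ext <;> rfl
    rw [h1]
    exact hC

theorem SemiAt.mono {E : WeierstrassCurve K} {F F' : IntermediateField K (AlgebraicClosure K)}
    (hle : F ≤ F') {w : AlgebraicClosure K → ℝ} (h : SemiAt E F w) : SemiAt E F' w := by
  rw [semiAt_iff] at h ⊢
  obtain ⟨C, h1, h2, h3, h4, h5⟩ := h
  exact ⟨C, hle h1, hle h2, hle h3, hle h4, h5⟩

/-- **Descent of a semistable model to a dense subfield.** -/
theorem SemiAt.descend {p : ℕ} (hp : p.Prime) {w : AlgebraicClosure K → ℝ} (hw : IsPl p w)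
    {E : WeierstrassCurve K} {F N : IntermediateField K (AlgebraicClosure K)} (h : SemiAt E N w)
    (hd : ∀ x ∈ N, ∀ ε : ℝ, 0 < ε → ∃ y ∈ F, w (y - x) < ε) : SemiAt E F w := by
  rw [semiAt_iff] at h ⊢
  obtain ⟨C, hu, hr, hs, ht, hC⟩ := h
  have hu0 : 0 < w (C.u : AlgebraicClosure K) := hw.pos hp C.u.ne_zero
  obtain ⟨u₁, hu₁F, hu₁⟩ := hd _ hu _ hu0
  let δ : ℝ := min (min (w (C.u : AlgebraicClosure K)) (w (C.u : AlgebraicClosure K) ^ 2))
    (min (w (C.u : AlgebraicClosure K) ^ 3)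
      (w (C.u : AlgebraicClosure K) ^ 3 / (w C.s + 1)))
  have hs0 := hw.nonneg C.s
  have hδ : 0 < δ := by
    refine lt_min (lt_min hu0 (by positivity)) (lt_min (by positivity) (by positivity))
  have hδ1 : δ ≤ w (C.u : AlgebraicClosure K) := (min_le_left _ _).trans (min_le_left _ _)
  have hδ2 : δ ≤ w (C.u : AlgebraicClosure K) ^ 2 := (min_le_left _ _).trans (min_le_right _ _)
  have hδ3 : δ ≤ w (C.u : AlgebraicClosure K) ^ 3 := (min_le_right _ _).trans (min_le_left _ _)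
  have hδ4 : δ ≤ w (C.u : AlgebraicClosure K) ^ 3 / (w C.s + 1) :=
    (min_le_right _ _).trans (min_le_right _ _)
  obtain ⟨r₁, hr₁F, hr₁⟩ := hd _ hr δ hδ
  obtain ⟨s₁, hs₁F, hs₁⟩ := hd _ hs δ hδ
  obtain ⟨t₁, ht₁F, ht₁⟩ := hd _ ht δ hδ
  have hwu₁ : w u₁ = w (C.u : AlgebraicClosure K) := by
    have h1 := hw.add_eq hp hu₁
    rwa [sub_add_cancel] at h1
  have hu₁0 : u₁ ≠ 0 := by
    rintro rfl
    rw [hw.zero] at hwu₁
    rw [← hwu₁] at hu0
    exact lt_irrefl _ hu0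
  let C₁ : VariableChange (AlgebraicClosure K) := ⟨Units.mk0 u₁ hu₁0, r₁, s₁, t₁⟩
  refine ⟨C₁, hu₁F, hr₁F, hs₁F, ht₁F, ?_⟩
  have hdec : C₁ = (C₁ * C⁻¹) * C := by group
  rw [hdec, mul_smul]
  have hui : ((C.u⁻¹ : (AlgebraicClosure K)ˣ) : AlgebraicClosure K) =
      (C.u : AlgebraicClosure K)⁻¹ := Units.val_inv_eq_inv_val _
  refine semi_change hp hw hC ?_ ?_ ?_ ?_
  · have h1 : ((C₁ * C⁻¹).u : AlgebraicClosure K) = u₁ * (C.u : AlgebraicClosure K)⁻¹ := by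
      rw [← hui]
      rfl
    rw [h1, hw.mul, hw.inv hp, hwu₁, mul_inv_cancel₀ hu0.ne']
  · have h1 : (C₁ * C⁻¹).r = (r₁ - C.r) * ((C.u : AlgebraicClosure K)⁻¹) ^ 2 := by
      rw [← hui]
      change r₁ * ((C.u⁻¹ : (AlgebraicClosure K)ˣ) : AlgebraicClosure K) ^ 2 +
        -C.r * ((C.u⁻¹ : (AlgebraicClosure K)ˣ) : AlgebraicClosure K) ^ 2 = _
      ring
    rw [h1, hw.mul, hw.pow hp, hw.inv hp, inv_pow, ← div_eq_mul_inv, div_le_one (by positivity)]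
    exact hr₁.le.trans hδ2
  · have h1 : (C₁ * C⁻¹).s = (s₁ - C.s) * (C.u : AlgebraicClosure K)⁻¹ := by
      rw [← hui]
      change ((C.u⁻¹ : (AlgebraicClosure K)ˣ) : AlgebraicClosure K) * s₁ +
        -C.s * ((C.u⁻¹ : (AlgebraicClosure K)ˣ) : AlgebraicClosure K) = _
      ring
    rw [h1, hw.mul, hw.inv hp, ← div_eq_mul_inv, div_le_one hu0]
    exact hs₁.le.trans hδ1
  · have h1 : (C₁ * C⁻¹).t = ((t₁ - C.t) - C.s * (r₁ - C.r)) *
        ((C.u : AlgebraicClosure K)⁻¹) ^ 3 := by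
      rw [← hui]
      change t₁ * ((C.u⁻¹ : (AlgebraicClosure K)ˣ) : AlgebraicClosure K) ^ 3 +
        r₁ * (-C.s * ((C.u⁻¹ : (AlgebraicClosure K)ˣ) : AlgebraicClosure K)) *
          ((C.u⁻¹ : (AlgebraicClosure K)ˣ) : AlgebraicClosure K) ^ 2 +
        (C.r * C.s - C.t) * ((C.u⁻¹ : (AlgebraicClosure K)ˣ) : AlgebraicClosure K) ^ 3 = _
      ring
    rw [h1, hw.mul, hw.pow hp, hw.inv hp, inv_pow, ← div_eq_mul_inv, div_le_one (by positivity)]
    refine (hw.sub hp _ _).trans (max_le (ht₁.le.trans hδ3) ?_)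
    rw [hw.mul]
    have h2 : w (r₁ - C.r) ≤ w (C.u : AlgebraicClosure K) ^ 3 / (w C.s + 1) := hr₁.le.trans hδ4
    have h3 : w C.s * w (r₁ - C.r) ≤ w C.s * (w (C.u : AlgebraicClosure K) ^ 3 / (w C.s + 1)) :=
      mul_le_mul_of_nonneg_left h2 hs0
    refine h3.trans ?_
    rw [← mul_div_assoc, div_le_iff₀ (by positivity)]
    nlinarith [pow_pos hu0 3]

/-- good reduction at almost all places -/
theorem semi_almost {E : WeierstrassCurve K} (hE : E.IsElliptic) :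
    ∃ T : Finset ℕ, (∀ p ∈ T, p.Prime) ∧ ∀ p : ℕ, p.Prime → p ∉ T →
      ∀ w : AlgebraicClosure K → ℝ, IsPl p w →
        ∀ F : IntermediateField K (AlgebraicClosure K), SemiAt E F w := by
  let W := E.map (algebraMap K (AlgebraicClosure K))
  have hΔ : W.Δ ≠ 0 := by
    rw [map_Δ]
    intro h
    exact E.isUnit_Δ.ne_zero ((map_eq_zero _).1 h)
  -- a nonzero element is a unit almost everywhere
  have key : ∀ x : AlgebraicClosure K, ∃ T : Finset ℕ, ∀ p : ℕ, p.Prime → p ∉ T →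
      ∀ w : AlgebraicClosure K → ℝ, IsPl p w → w x ≤ 1 ∧ (x ≠ 0 → w x = 1) := by
    intro x
    by_cases hx : x = 0
    · refine ⟨∅, fun p _ _ w hw => ⟨?_, fun h => absurd hx h⟩⟩
      rw [hx, hw.zero]
      exact zero_le_one
    obtain ⟨D, hD, h1⟩ := exists_div hx
    obtain ⟨D', hD', h2⟩ := exists_div (inv_ne_zero hx)
    refine ⟨D.natAbs.primeFactors ∪ D'.natAbs.primeFactors, fun p hp hpT w hw => ?_⟩
    rw [Finset.mem_union, not_or] at hpT
    have h3 : 1 ≤ w x := by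
      by_contra hcon
      have h4 := h1 p hp w hw (not_le.1 hcon)
      exact hpT.1 (Nat.mem_primeFactors.2 ⟨hp, Int.natCast_dvd.1 h4, Int.natAbs_ne_zero.2 hD⟩)
    have h4 : w x ≤ 1 := by
      by_contra hcon
      have h5 : w x⁻¹ < 1 := by
        rw [hw.inv hp]
        exact inv_lt_one_of_one_lt₀ (not_le.1 hcon)
      have h6 := h2 p hp w hw h5
      exact hpT.2 (Nat.mem_primeFactors.2 ⟨hp, Int.natCast_dvd.1 h6, Int.natAbs_ne_zero.2 hD'⟩)
    exact ⟨h4, fun _ => le_antisymm h4 h3⟩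
  obtain ⟨T1, h1⟩ := key W.a₁
  obtain ⟨T2, h2⟩ := key W.a₂
  obtain ⟨T3, h3⟩ := key W.a₃
  obtain ⟨T4, h4⟩ := key W.a₄
  obtain ⟨T6, h6⟩ := key W.a₆
  obtain ⟨T0, h0⟩ := key W.Δ
  refine ⟨(T1 ∪ T2 ∪ T3 ∪ T4 ∪ T6 ∪ T0).filter Nat.Prime, fun p hp => (Finset.mem_filter.1 hp).2,
    fun p hp hpT w hw F => ?_⟩
  have hpT' : p ∉ T1 ∪ T2 ∪ T3 ∪ T4 ∪ T6 ∪ T0 := fun h => hpT (Finset.mem_filter.2 ⟨h, hp⟩)
  simp only [Finset.mem_union, not_or] at hpT'
  obtain ⟨⟨⟨⟨⟨n1, n2⟩, n3⟩, n4⟩, n6⟩, n0⟩ := hpT'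
  rw [semiAt_iff]
  refine ⟨1, F.one_mem, F.zero_mem, F.zero_mem, F.zero_mem, ?_⟩
  rw [one_smul]
  exact ⟨⟨(h1 p hp n1 w hw).1, (h2 p hp n2 w hw).1, (h3 p hp n3 w hw).1, (h4 p hp n4 w hw).1,
    (h6 p hp n6 w hw).1⟩, Or.inl ((h0 p hp n0 w hw).2 hΔ)⟩

end

end Pool.Agent.Q273.SQ
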